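import Pool.Agent.MP_5daf37_lc.HG.Lin

section

/-!
Binomial estimates for the elementary divisors of a tensor power.
-/

open Finset

namespace Pool.Agent.MP_5daf37_lc.HG

theorem pascal (k : ℕ) (g : ℕ → ℤ) : ∑ i ∈ range (k + 2), ((k + 1).choose i : ℤ) * g i =
    ∑ i ∈ range (k + 1), (k.choose i : ℤ) * g i + ∑ i ∈ range (k + 1), (k.choose i : ℤ) * g (i + 1) :=
  sum_choose_succ_mul (fun i _ => g i) k

theorem moment (k : ℕ) : ∀ c : ℤ,
    ∑ i ∈ range (k + 1), (k.choose i : ℤ) * (k - 2 * i + c) ^ 2 = (k + c ^ 2) * 2 ^ k := by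
  induction k with
  | zero => simp
  | succ k ih =>
    intro c
    rw [pascal k fun i => (((k + 1 : ℕ) : ℤ) - 2 * i + c) ^ 2]
    have h1 := ih (c + 1)
    have h2 := ih (c - 1)
    refine Eq.trans (congrArg₂ (· + ·) (Eq.trans ?_ h1) (Eq.trans ?_ h2)) (by push_cast; ring) <;>
      exact sum_congr rfl fun i _ => by push_cast; ring

theorem symm_le (k : ℕ) (f g : ℕ → ℤ) (h : ∀ i ≤ k, f i + f (k - i) ≤ g i) :
    2 * ∑ i ∈ range (k + 1), (k.choose i : ℤ) * f i ≤ ∑ i ∈ range (k + 1), (k.choose i : ℤ) * g i := by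
  rw [two_mul]
  nth_rewrite 2 [← sum_range_reflect]
  rw [← sum_add_distrib]
  refine sum_le_sum fun i hi => ?_
  have h1 : i ≤ k := Nat.lt_succ_iff.1 (mem_range.1 hi)
  rw [Nat.add_sub_cancel, Nat.choose_symm h1, ← mul_add]
  exact mul_le_mul_of_nonneg_left (h i h1) (by positivity)

theorem bin1 {k j l : ℕ} (hj : 2 * j ≤ k + 1) (hl : 16 * l ^ 2 ≤ k) :
    4 * ∑ i ∈ range (k + 1), (k.choose i : ℤ) * (if i < j + l then 1 else 0) ≤ 3 * 2 ^ k := by
  have h1 := symm_le k (fun i => if i < j + l then 1 else 0)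
    (fun i => 1 + if i ∈ Ico (k + 1 - (j + l)) (j + l) then 1 else 0) fun i hi => by
      simp only [mem_Ico]
      split_ifs <;> omega
  have hc : 4 * l * k.choose (k / 2) ≤ 2 ^ k := by
    refine (pow_le_pow_iff_left₀ (Nat.zero_le _) (Nat.zero_le _) two_ne_zero).1
      (le_trans ?_ (FC5.choose_sq k (k / 2)))
    calc (4 * l * k.choose (k / 2)) ^ 2 = k.choose (k / 2) ^ 2 * (16 * l ^ 2) := by ring
      _ ≤ _ := Nat.mul_le_mul_left _ hl
  have h2 : ∑ i ∈ range (k + 1) with i ∈ Ico (k + 1 - (j + l)) (j + l), k.choose i ≤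
      2 * l * k.choose (k / 2) := by
    refine (sum_le_card_nsmul _ _ _ fun i _ => Nat.choose_le_middle i k).trans
      (Nat.mul_le_mul_right _ ((card_le_card fun i hi => (mem_filter.1 hi).2).trans ?_))
    rw [Nat.card_Ico]
    omega
  simp only [mul_add, mul_one, sum_add_distrib, mul_ite, mul_zero, ← sum_filter] at h1 ⊢
  have h3 := Nat.sum_range_choose k
  zify at hc h2 h3
  linarith

theorem bin2 {k j a : ℕ} (hj : 2 * j ≤ k + 1) (ha : 1 ≤ a) :
    16 * (2 * a - 1) * ∑ i ∈ range (k + 1), (k.choose i : ℤ) * (j - a - i : ℕ) ≤ k * 2 ^ k := by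
  have h1 := symm_le k (fun i => 8 * (2 * a - 1) * (j - a - i : ℕ)) (fun i => (k - 2 * i + 0) ^ 2)
    fun i hi => by
      obtain ⟨i', rfl⟩ := Nat.exists_eq_add_of_le hi
      rw [Nat.add_sub_cancel_left]
      have b1 : (1 : ℤ) ≤ a := by exact_mod_cast ha
      rcases (show (j - a - i = 0 ∧ j - a - i' = 0) ∨
          (j - a - i' = 0 ∧ 2 * ((j - a - i : ℕ) : ℤ) ≤ i' - i - (2 * a - 1)) ∨
          (j - a - i = 0 ∧ 2 * ((j - a - i' : ℕ) : ℤ) ≤ i - i' - (2 * a - 1)) by omega) with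
        ⟨h, h'⟩ | ⟨h, h'⟩ | ⟨h, h'⟩
      · rw [h, h']; simpa using sq_nonneg _
      · rw [h]; push_cast; nlinarith [sq_nonneg ((i' : ℤ) - i - 2 * (2 * a - 1))]
      · rw [h]; push_cast; nlinarith [sq_nonneg ((i : ℤ) - i' - 2 * (2 * a - 1))]
  rw [moment] at h1
  simp only [mul_left_comm _ (8 * (2 * (a : ℤ) - 1)), ← mul_sum] at h1
  linarith

theorem sum_tensor {N h : ℕ} (δ : Fin N → ℕ) (hδ : ∀ g : ℕ → ℤ, ∑ a, g (δ a) = h * (g 0 + g 1))
    (k : ℕ) : ∀ f : ℕ → ℤ, ∑ x : Fin k → Fin N, f (∑ l, δ (x l)) =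
      h ^ k * ∑ i ∈ range (k + 1), (k.choose i : ℤ) * f i := by
  induction k with
  | zero => simp
  | succ k ih =>
    intro f
    rw [← (Fin.consEquiv fun _ => Fin N).sum_comp, Fintype.sum_prod_type, sum_comm, pascal]
    simp only [Fin.consEquiv_apply, Fin.sum_univ_succ, Fin.cons_zero, Fin.cons_succ]
    rw [sum_congr rfl fun x _ => hδ fun t => f (t + ∑ l, δ (x l)), ← mul_sum, sum_add_distrib,
      ih fun t => f (0 + t), ih fun t => f (1 + t)]
    simp only [zero_add, add_comm 1]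
    ring

end Pool.Agent.MP_5daf37_lc.HG

end

section

/-!
Elementary divisors of an integer matrix `B` with `B Bᵀ = P`, and of its tensor powers.
-/

open Matrix

namespace Pool.Agent.MP_5daf37_lc.HG

theorem snf0 {N : ℕ} (B : Matrix (Fin N) (Fin N) ℤ) (hB : B.det ≠ 0) :
    ∃ (F G : Matrix (Fin N) (Fin N) ℤ) (a : Fin N → ℤ), IsUnit F.det ∧ IsUnit G.det ∧
      B = F * diagonal a * G := by
  obtain ⟨b, a, c, h⟩ := Submodule.exists_smith_normal_form_of_rank_eq
    (N := LinearMap.range B.mulVecLin) (Pi.basisFun ℤ (Fin N))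
    ((rank_of_det_ne_zero hB).trans (by simp))
  let F : Matrix (Fin N) (Fin N) ℤ := (Pi.basisFun ℤ (Fin N)).toMatrix b
  let G : Matrix (Fin N) (Fin N) ℤ := of fun j l => c.repr ⟨_, Pi.single l 1, rfl⟩ j
  choose g hg using fun j => (c j).2
  have h1 : B = F * diagonal a * G := by
    ext i l
    have := congrArg (fun v : LinearMap.range B.mulVecLin => (v : Fin N → ℤ) i)
      (c.sum_repr ⟨_, Pi.single l 1, rfl⟩)
    simp only [AddSubmonoidClass.coe_finsetSum, SetLike.val_smul, h, Finset.sum_apply] at this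
    rw [mul_apply]
    simpa [F, G, Module.Basis.toMatrix_apply, mul_comm, mul_left_comm] using this.symm
  have h2 : B * (of g)ᵀ = F * diagonal a := by
    ext i l
    have := congrFun ((hg l).trans (h l)) i
    simpa [F, Module.Basis.toMatrix_apply, mul_apply, diagonal_apply, mulVec, dotProduct,
      mul_comm] using this
  refine ⟨F, G, a, (Pi.basisFun ℤ (Fin N)).isUnit_det b, ?_, h1⟩
  have h3 := congrArg det h2
  have h4 := congrArg det h1
  rw [det_mul] at h3 h4
  rw [← h3, mul_assoc] at h4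
  exact IsUnit.of_mul_eq_one_right _ (mul_left_cancel₀ hB ((mul_one _).trans h4)).symm

theorem snf {N P : ℕ} (hP : P.Prime) (B : Matrix (Fin N) (Fin N) ℤ)
    (hB : B * Bᵀ = (P : ℤ) • (1 : Matrix (Fin N) (Fin N) ℤ)) :
    ∃ (F G : Matrix (Fin N) (Fin N) ℤ) (δ : Fin N → ℕ) (h : ℕ),
      B = F * diagonal (fun a => (P : ℤ) ^ δ a) * G ∧
      ∀ g : ℕ → ℤ, ∑ a, g (δ a) = h * (g 0 + g 1) := by
  have h0 : B.det * B.det = (P : ℤ) ^ N := by
    have := congrArg det hB
    rwa [det_mul, det_transpose, det_smul, det_one, mul_one, Fintype.card_fin] at this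
  obtain ⟨F, G, a, hF, hG, h1⟩ := snf0 B fun h => by
    rw [h, zero_mul] at h0
    exact pow_ne_zero _ (Nat.cast_ne_zero.2 hP.ne_zero) h0.symm
  have h2 : diagonal a * (G * Bᵀ * F) = (P : ℤ) • (1 : Matrix (Fin N) (Fin N) ℤ) := by
    refine ((isUnit_iff_isUnit_det F).2 hF).mul_left_cancel ?_
    simp only [← Matrix.mul_assoc, ← h1, hB]
    rw [Matrix.smul_mul, Matrix.mul_smul, Matrix.one_mul, Matrix.mul_one]
  have h3 : ∀ i, ∃ δ : ℕ, δ ≤ 1 ∧ (a i).natAbs = P ^ δ := fun i => by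
    have h4 : a i ∣ P := ⟨(G * Bᵀ * F) i i, by simpa using (congrFun (congrFun h2 i) i).symm⟩
    rcases (Nat.dvd_prime hP).1 (Int.natAbs_dvd_natAbs.2 h4) with h | h
    exacts [⟨0, by simpa using h⟩, ⟨1, by simpa using h⟩]
  choose δ d1 d2 using h3
  have h5 : 2 * ∑ i, δ i = N := by
    have := congrArg Int.natAbs h0
    rw [h1] at this
    simp only [det_mul, det_diagonal, Int.natAbs_mul, Int.isUnit_iff_natAbs_eq.1 hF,
      Int.isUnit_iff_natAbs_eq.1 hG, one_mul, mul_one, Int.natAbs_pow, Int.natAbs_natCast] at this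
    rw [← Int.natAbsHom_apply, map_prod] at this
    simp only [Int.natAbsHom_apply, d2, Finset.prod_pow_eq_pow_sum, ← pow_add] at this
    rw [two_mul]
    exact Nat.pow_right_injective hP.two_le this
  refine ⟨F, diagonal (fun i => (a i).sign) * G, δ, ∑ i, δ i, ?_, fun g => ?_⟩
  · rw [Matrix.mul_assoc, ← Matrix.mul_assoc (diagonal _), diagonal_mul_diagonal,
      ← Matrix.mul_assoc, h1]
    congr 3
    funext i
    rw [← Nat.cast_pow, ← d2, mul_comm, Int.sign_mul_natAbs]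
  · have h6 : ∀ i, g (δ i) = g 0 + δ i * (g 1 - g 0) := fun i => by
      rcases Nat.le_one_iff_eq_zero_or_eq_one.1 (d1 i) with h | h <;> simp [h]
    simp only [h6, Finset.sum_add_distrib, ← Finset.sum_mul, Finset.sum_const, Finset.card_univ,
      Fintype.card_fin, nsmul_eq_mul, ← Nat.cast_sum]
    rw [show (N : ℤ) = 2 * (∑ i, δ i : ℕ) by exact_mod_cast h5.symm]
    ring

/-- The tensor power. -/
def tp {N : ℕ} (k : ℕ) (B : Matrix (Fin N) (Fin N) ℤ) : Matrix (Fin k → Fin N) (Fin k → Fin N) ℤ :=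
  of fun x y => ∏ l, B (x l) (y l)

theorem tp_mul {N : ℕ} (k : ℕ) (A B : Matrix (Fin N) (Fin N) ℤ) :
    tp k (A * B) = tp k A * tp k B := by
  ext x z
  simp only [tp, mul_apply, of_apply, Finset.prod_univ_sum, Fintype.piFinset_univ,
    Finset.prod_mul_distrib]

theorem tp_diagonal {N : ℕ} (k : ℕ) (a : Fin N → ℤ) :
    tp k (diagonal a) = diagonal fun x => ∏ l, a (x l) := by
  ext x z
  by_cases h : x = z
  · simp [tp, h]
  · obtain ⟨l, hl⟩ := Function.ne_iff.1 h
    rw [diagonal_apply_ne _ h]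
    exact Finset.prod_eq_zero (Finset.mem_univ l) (diagonal_apply_ne _ hl)

end Pool.Agent.MP_5daf37_lc.HG

end

section

/-!
The small integral system attached to a circuit with help edges.
-/

open Matrix

namespace Pool.Agent.MP_5daf37_lc.HG
open FC

theorem resolvent {K ν ι ε : Type} [Field K] [Fintype ν] [DecidableEq ν] [Fintype ε]
    {M G G' : Matrix ν ν K} {P : Matrix ν ε K} {Q : Matrix ε ν K} {Y : Matrix ε ε K}
    (h : M * G = 1) (h' : (M - P * Y * Q) * G' = 1) (P' : Matrix ν ι K) (Q' : Matrix ι ν K) :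
    Q' * G' * P' = Q' * G * P' + Q' * G * P * Y * (Q * G' * P') ∧
    Q * G' * P' = Q * G * P' + Q * G * P * Y * (Q * G' * P') ∧
    Q' * G' * P' = Q' * G * P' + Q' * G' * P * Y * (Q * G * P') := by
  have h1 : G' = G + G * (P * Y * Q) * G' := by
    have := congrArg (G * ·) h'
    simp only [Matrix.sub_mul, Matrix.mul_sub, ← Matrix.mul_assoc, mul_eq_one_comm.1 h,
      Matrix.one_mul, Matrix.mul_one] at this
    simpa only [← Matrix.mul_assoc] using eq_add_of_sub_eq this
  have h2 : G' = G + G' * (P * Y * Q) * G := by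
    have := congrArg (· * G) (mul_eq_one_comm.1 h')
    simp only [Matrix.sub_mul, Matrix.mul_sub, Matrix.mul_assoc, h,
      Matrix.one_mul, Matrix.mul_one] at this
    simpa only [Matrix.mul_assoc] using eq_add_of_sub_eq this
  refine ⟨?_, ?_, ?_⟩
  · conv_lhs => rw [h1]
    simp only [Matrix.mul_add, Matrix.add_mul, Matrix.mul_assoc]
  · conv_lhs => rw [h1]
    simp only [Matrix.mul_add, Matrix.add_mul, Matrix.mul_assoc]
  · conv_lhs => rw [h2]
    simp only [Matrix.mul_add, Matrix.add_mul, Matrix.mul_assoc]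

variable {F : Type} {n p q : ℕ}

/-- One equation for each edge and one for each node. -/
def sys {T : Type} [CommRing T] (C : Circuit F n p q) (a b : Fin q → T) :
    Matrix (Fin q ⊕ Fin p) (Fin q ⊕ Fin p) T :=
  fromBlocks (diagonal b) (-of fun e u => if C.tail e = u then a e else 0)
    (-of fun v e => if C.head e = v then 1 else 0) 1

theorem sys_inv {K : Type} [Field K] (C : Circuit F n p q) (w b : Fin q → K) (hb : ∀ e, b e ≠ 0) :
    ∃ G, sys C (fun e => b e * w e) b * G = 1 ∧ G.toBlocks₂₂ = (1 - Wm C w).adjugate := by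
  let X : Matrix (Fin q) (Fin p) K := of fun e u => if C.tail e = u then w e else 0
  let Y : Matrix (Fin p) (Fin q) K := of fun v e => if C.head e = v then 1 else 0
  let D' : Matrix (Fin q) (Fin q) K := diagonal fun e => (b e)⁻¹
  let J := (1 - Wm C w).adjugate
  have h1 : Y * X = Wm C w := by
    ext v u
    simp only [X, Y, Wm, mul_apply, of_apply]
    refine Finset.sum_congr rfl fun e _ => ?_
    by_cases h : C.head e = v <;> simp [h]
  have h2 : Y * (X * J) = J - 1 := by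
    have : (1 - Wm C w) * J = 1 := by rw [mul_adjugate, det_one_sub_Wm, one_smul]
    rw [← Matrix.mul_assoc, h1, ← this, Matrix.sub_mul, Matrix.one_mul, sub_sub_cancel]
  have h3 : diagonal b * D' = 1 := by
    rw [diagonal_mul_diagonal, ← diagonal_one]
    congr 1
    funext e
    exact mul_inv_cancel₀ (hb e)
  have h4 : sys C (fun e => b e * w e) b = fromBlocks (diagonal b) (-(diagonal b * X)) (-Y) 1 := by
    ext (e | v) (e' | u) <;> simp [sys, X, Y]
  refine ⟨fromBlocks (D' + X * J * Y * D') (X * J) (J * Y * D') J, ?_, rfl⟩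
  rw [h4, fromBlocks_multiply, ← fromBlocks_one]
  congr 1
  · simp [Matrix.mul_add, h3, Matrix.mul_assoc]
  · simp [Matrix.mul_assoc]
  · rw [Matrix.neg_mul, Matrix.mul_add, Matrix.mul_assoc (X * J), ← Matrix.mul_assoc Y (X * J), h2]
    simp [Matrix.sub_mul, Matrix.mul_assoc]
  · rw [Matrix.neg_mul, h2]; simp

theorem circ [Field F] [Algebra F ℂ] {ι : Type} [Fintype ι] [DecidableEq ι] (C : Circuit F n p q)
    {f : ι → Fin n} (hf : Function.Injective f) (E : Finset (Fin q)) (a b : Fin q → ℤ)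
    (h : Fin q → ℕ) (hw : ∀ e ∉ E, b e ≠ 0 ∧ |a e| ≤ 2 ^ h e ∧ |b e| ≤ 2 ^ h e ∧
      C.weight e = (a e : F) / b e) {H : Matrix (Fin n) (Fin n) F} (hC : C.Computes H) :
    ∃ (A : Matrix ι ι ℚ) (U : Matrix ι E ℚ) (V : Matrix E ι ℚ) (N : Matrix E E ℚ) (d : ℤ)
      (y : E → ℂ) (V' : Matrix E ι ℂ) (U' : Matrix ι E ℂ),
      Small d (p + 2 * q + ∑ e, h e) (fromBlocks A U V N) ∧
      (H.submatrix f f).map (algebraMap F ℂ) = A.map qc + U.map qc * diagonal y * V' ∧
      V' = V.map qc + N.map qc * diagonal y * V' ∧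
      (H.submatrix f f).map (algebraMap F ℂ) = A.map qc + U' * diagonal y * V.map qc := by
  let φ := algebraMap F ℂ
  let a' : Fin q → ℤ := fun e => if e ∈ E then 0 else a e
  let b' : Fin q → ℤ := fun e => if e ∈ E then 1 else b e
  have hb : ∀ e, b' e ≠ 0 := fun e => by
    by_cases he : e ∈ E
    · simp [b', he]
    · simpa [b', he] using (hw e he).1
  let Q₁ : Matrix ι (Fin q ⊕ Fin p) ℤ := fromCols 0 (Cm ℤ C f)
  let Q₂ : Matrix E (Fin q ⊕ Fin p) ℤ := fromCols 0 (of fun e u => if C.tail e = u then 1 else 0)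
  let P₁ : Matrix (Fin q ⊕ Fin p) ι ℤ := fromRows 0 (Bm ℤ C f)
  let P₂ : Matrix (Fin q ⊕ Fin p) E ℤ := fromRows (of fun e e' => if e' = e then 1 else 0) 0
  obtain ⟨G, g1, -⟩ := sys_inv C (fun e => (a' e : ℚ) / b' e) (fun e => (b' e : ℚ))
    fun e => Int.cast_ne_zero.2 (hb e)
  obtain ⟨G', g2, g3⟩ := sys_inv C (fun e => φ (C.weight e)) (fun e => (b' e : ℂ))
    fun e => Int.cast_ne_zero.2 (hb e)
  have e1 : sys C (fun e => (b' e : ℚ) * ((a' e : ℚ) / b' e)) (fun e => (b' e : ℚ)) =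
      (sys C a' b').map zq := by
    have : ∀ e, (b' e : ℚ) * ((a' e : ℚ) / b' e) = a' e := fun e =>
      mul_div_cancel₀ _ (Int.cast_ne_zero.2 (hb e))
    ext (e | v) (e' | u) <;> simp [sys, diagonal_apply, one_apply, this]
  have e2 : sys C (fun e => (b' e : ℂ) * φ (C.weight e)) (fun e => (b' e : ℂ)) =
      ((sys C a' b').map zq).map qc - (P₂.map zq).map qc * diagonal (fun e : E => φ (C.weight e)) *
        (Q₂.map zq).map qc := by
    ext (e | v) (e' | u)
    · simp [sys, diagonal_apply, mul_apply, Q₂]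
    · by_cases he : e ∈ E
      · rw [Matrix.sub_apply, mul_apply, Finset.sum_eq_single ⟨e, he⟩]
        · simp [sys, P₂, Q₂, a', b', he]
        · intro c _ hc
          have : ¬ (c : Fin q) = e := fun h => hc (Subtype.ext h)
          simp [P₂, this]
        · simp
      · have : ∀ c : E, ¬ (c : Fin q) = e := fun c h => he (h ▸ c.2)
        have h1 : (b e : ℂ) * ((a e : ℂ) / b e) = a e :=
          mul_div_cancel₀ _ (Int.cast_ne_zero.2 (hw e he).1)
        rw [Matrix.sub_apply, mul_apply]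
        simp [sys, P₂, a', b', he, this, (hw e he).2.2.2, h1, apply_ite ((↑) : ℚ → ℂ)]
    · simp [sys, mul_apply, P₂]
    · simp [sys, one_apply, mul_apply, P₂]
  rw [e1] at g1
  rw [e2] at g2
  have e3 : (H.submatrix f f).map (algebraMap F ℂ) = (Q₁.map zq).map qc * G' * (P₁.map zq).map qc := by
    rw [← Circ02.Tm_eq C H f hC, Tm_map, Tm, ← g3, ← fromBlocks_toBlocks G']
    have c1 : ((Cm ℤ C f).map zq).map qc = Cm ℂ C f := by ext; simp [Cm]
    have c2 : ((Bm ℤ C f).map zq).map qc = Bm ℂ C f := by ext; simp [Bm]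
    simp only [Q₁, P₁, fromCols_map, fromRows_map, fromCols_mul_fromBlocks, fromCols_mul_fromRows,
      c1, c2]
    simp
  obtain ⟨r1, r2, r3⟩ := resolvent (show _ * G.map qc = 1 by rw [← Matrix.map_mul, g1]; simp) g2
    ((P₁.map zq).map qc) ((Q₁.map zq).map qc)
  refine ⟨Q₁.map zq * G * P₁.map zq, Q₁.map zq * G * P₂.map zq, Q₂.map zq * G * P₁.map zq,
    Q₂.map zq * G * P₂.map zq, (sys C a' b').det, fun e => φ (C.weight e), _, _, ?_,
    by simpa only [Matrix.map_mul, e3] using r1, by simpa only [Matrix.map_mul] using r2,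
    by simpa only [Matrix.map_mul, e3] using r3⟩
  refine ⟨_, inferInstance, inferInstance, sys C a' b', G, fromRows Q₁ Q₂, fromCols P₁ P₂,
    Sum.elim (fun e => h e + 1) fun v => 1 + (Finset.univ.filter fun e => C.head e = v).card,
    g1, rfl, by
      rw [fromRows_map Q₁, fromCols_map P₁, fromRows_mul, fromRows_mul_fromCols], ?_, ?_, ?_⟩
  · rintro (i | e) <;> simp [Q₁, Q₂, Cm, Fintype.sum_sum_type, apply_ite Int.natAbs]
  · rintro (e | v)
    · have h3 : 1 ≤ 2 ^ h e := Nat.one_le_two_pow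
      have h4 := Circ1.sum_ite_le (fun c : E => (c : Fin q) = e) fun i j hi hj =>
        Subtype.ext (hi.trans hj.symm)
      by_cases he : e ∈ E
      · simp [sys, P₁, P₂, a', b', he, Fintype.sum_sum_type, diagonal_apply, apply_ite Int.natAbs,
          pow_add] at h4 ⊢
        omega
      · obtain ⟨-, h1, h2, -⟩ := hw e he
        have : ∀ c : E, ¬ (c : Fin q) = e := fun c h => he (h ▸ c.2)
        rw [← Int.natCast_natAbs] at h1 h2
        norm_cast at h1 h2
        simp [sys, P₁, P₂, a', b', he, this, Fintype.sum_sum_type, diagonal_apply,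
          apply_ite Int.natAbs, pow_add]
        omega
    · have h4 := Nat.lt_two_pow_self (n := (Finset.univ.filter fun e => C.head e = v).card)
      have h5 := Circ1.sum_ite_le (fun j => (∀ e, C.head e ≠ v) ∧ C.label v = f j) fun i j hi hj =>
        hf (hi.2.symm.trans hj.2)
      simp [sys, P₁, P₂, Bm, Fintype.sum_sum_type, one_apply, apply_ite Int.natAbs,
        pow_add] at h5 ⊢
      omega
  · rw [Fintype.sum_sum_type]
    simp only [Sum.elim_inl, Sum.elim_inr, Finset.sum_add_distrib]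
    rw [← Finset.card_eq_sum_card_fiberwise fun e _ =>
      Finset.mem_coe.2 (Finset.mem_univ (C.head e))]
    simp
    omega

end Pool.Agent.MP_5daf37_lc.HG

end

section

/-!
The lower bound for circuits with more than `n` arbitrary scalars.
-/

open Matrix

namespace Pool.Agent.MP_5daf37_lc.HG
open FC

theorem main {F : Type} [Field F] [Algebra F ℂ] {P N k n p q : ℕ} (hP : P.Prime)
    (B : Matrix (Fin N) (Fin N) ℤ) (hB : B * Bᵀ = (P : ℤ) • (1 : Matrix (Fin N) (Fin N) ℤ))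
    (hk : 10 ^ 7 ≤ k) (A : Matrix (Fin n) (Fin n) F) (f : (Fin k → Fin N) → Fin n)
    (hf : Function.Injective f) (hA : ∀ x y, A (f x) (f y) = ∏ l, (B (x l) (y l) : F))
    (C : Circuit F n p q) (hC : C.Computes A) (E : Finset (Fin q))
    (hE : 200 * E.card ≤ 201 * N ^ k) (a b : Fin q → ℤ) (h : Fin q → ℕ)
    (hw : ∀ e ∉ E, b e ≠ 0 ∧ |a e| ≤ 2 ^ h e ∧ |b e| ≤ 2 ^ h e ∧ C.weight e = (a e : F) / b e) :
    (N : ℝ) ^ k * (√k * Real.logb 2 P / 33000 - 2) ≤ p + q + ∑ e, (h e : ℝ) := by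
  obtain ⟨F₀, G₀, δ, m, s1, s2⟩ := snf hP B hB
  obtain ⟨A₀, U, V, N₀, d, y, V', U', c0, c1, c2, c3⟩ := circ C hf E a b h hw hC
  have e0 : (A.submatrix f f).map (algebraMap F ℂ) = ((tp k B).map zq).map qc := by
    ext x z; simp [hA, tp]
  rw [e0] at c1 c3
  have hB' : Bᵀ * B = (P : ℤ) • (1 : Matrix (Fin N) (Fin N) ℤ) := by
    have h0 := congrArg det hB
    rw [det_mul, det_smul, det_one, mul_one] at h0
    refine (isRegular_of_isLeftRegular_det (IsRegular.of_ne_zero (left_ne_zero_of_mul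
      (h0 ▸ pow_ne_zero _ (Nat.cast_ne_zero.2 hP.ne_zero)))).left).left ?_
    simp only [← Matrix.mul_assoc, hB, Matrix.smul_mul, Matrix.mul_smul, Matrix.one_mul,
      Matrix.mul_one]
  have t0 : tp k ((P : ℤ) • (1 : Matrix (Fin N) (Fin N) ℤ)) =
      ((P : ℤ) ^ k) • (1 : Matrix (Fin k → Fin N) (Fin k → Fin N) ℤ) := by
    rw [smul_one_eq_diagonal, smul_one_eq_diagonal, tp_diagonal]; simp
  have hn : Fintype.card (Fin k → Fin N) = N ^ k := by simp
  have hN : ((N ^ k : ℕ) : ℤ) = m ^ k * 2 ^ k := by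
    have := s2 fun _ => 1
    simp only [Finset.sum_const, Finset.card_univ, Fintype.card_fin, nsmul_eq_mul, mul_one] at this
    rw [Nat.cast_pow, this, mul_pow]; norm_num
  obtain ⟨u, u1, u2, u3⟩ : ∃ u : ℕ, 79 ≤ u ∧ 1600 * u ^ 2 ≤ k ∧ k ≤ 1600 * (u + 1) ^ 2 := by
    have a1 := Nat.sqrt_le' (k / 1600)
    have a2 := Nat.lt_succ_sqrt' (k / 1600)
    exact ⟨(k / 1600).sqrt, Nat.le_sqrt.2 (by omega), by omega, by rw [Nat.succ_eq_add_one] at a2; omega⟩
  have h1 := abs_bound (k := k) (j := (k + 1) / 2) (F := tp k F₀) (G := tp k G₀)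
    (q := fun x => ∑ l, δ (x l)) hP ((tp_mul k B Bᵀ).symm.trans (hB ▸ t0))
    ((tp_mul k Bᵀ B).symm.trans (hB' ▸ t0))
    (by rw [s1, tp_mul, tp_mul, tp_diagonal]; simp only [Finset.prod_pow_eq_pow_sum])
    (by omega) c0 c1 c2 c3 (by rwa [hn, Fintype.card_coe]) u1 u2 u3 (by
      have a1 := sum_tensor δ s2 k fun i => if i < (k + 1) / 2 + 10 * u then 1 else 0
      have a2 := mul_le_mul_of_nonneg_left (bin1 (k := k) (j := (k + 1) / 2) (l := 10 * u)
        (by omega) (by rw [mul_pow]; omega)) (show (0 : ℤ) ≤ m ^ k by positivity)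
      rw [Finset.sum_boole] at a1
      rw [hn, ← Nat.cast_le (α := ℤ), Nat.cast_mul, Nat.cast_mul, hN, a1]
      push_cast
      linarith) fun c hc => by
      have a1 := sum_tensor δ s2 k fun i => ((k + 1) / 2 - c - i : ℕ)
      have a2 := mul_le_mul_of_nonneg_left (bin2 (k := k) (j := (k + 1) / 2) (by omega) hc)
        (show (0 : ℤ) ≤ m ^ k by positivity)
      rw [hn, Nat.cast_sum, hN, a1]
      linarith
  rw [hn, show (4 : ℝ) = 2 ^ 2 by norm_num, ← pow_mul, ← pow_add, ← pow_mul] at h1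
  have p1 : (1 : ℝ) < P := by exact_mod_cast hP.one_lt
  have h2 := Real.logb_le_logb_of_le one_lt_two (by positivity) h1
  rw [Real.logb_pow, Real.logb_pow, Real.logb_self_eq_one one_lt_two] at h2
  have h3 := (Real.logb_pos one_lt_two p1).le
  have h4 : √k ≤ 41 * u := by
    refine Real.sqrt_le_iff.2 ⟨by positivity, ?_⟩
    exact_mod_cast u3.trans (by nlinarith)
  have h5 : (0 : ℝ) ≤ ∑ e, (h e : ℝ) := by positivity
  have h6 : (0 : ℝ) ≤ N ^ k := by positivity
  have h7 := mul_le_mul_of_nonneg_left (mul_le_mul_of_nonneg_right h4 h3) h6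
  have h8 := mul_nonneg h6 (mul_nonneg (Nat.cast_nonneg u) h3)
  have h9 : (0 : ℝ) ≤ p := by positivity
  push_cast at h2
  nlinarith

end Pool.Agent.MP_5daf37_lc.HG

end
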