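import Mathlib
import Pool.Agent.MP_5daf37_lc.FC.Rz4

section

/-!
Transfer matrices of integral linear systems and their pencils.
-/

open Matrix Polynomial

namespace Pool.Agent.MP_5daf37_lc.HG
open FC

/-- `A` is a transfer matrix of a linear system over `R` whose determinant is `c`. -/
def Re {R K l m : Type} [CommRing R] [CommRing K] (f : R →+* K) (c : R) (A : Matrix l m K) : Prop :=
  ∃ (ν : Type) (_ : Fintype ν) (_ : DecidableEq ν) (M : Matrix ν ν R) (G : Matrix ν ν K)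
    (Q : Matrix l ν R) (P : Matrix ν m R), M.map f * G = 1 ∧ M.det = c ∧ A = Q.map f * G * P.map f

section
variable {R K l m o : Type} [CommRing R] [CommRing K] {f : R →+* K} {c c' : R}

theorem Re.int [Fintype m] [DecidableEq m] (Z : Matrix l m R) : Re f 1 (Z.map f) :=
  ⟨m, inferInstance, inferInstance, 1, 1, Z, 1, by simp, by simp, by simp⟩

theorem Re.mul [Fintype m] {A : Matrix l m K} {B : Matrix m o K} (h : Re f c A) (h' : Re f c' B) :
    Re f (c * c') (A * B) := by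
  obtain ⟨ν, _, _, M, G, Q, P, h1, rfl, rfl⟩ := h
  obtain ⟨ν', _, _, M', G', Q', P', h1', rfl, rfl⟩ := h'
  refine ⟨ν ⊕ ν', inferInstance, inferInstance, fromBlocks M (-(P * Q')) 0 M',
    fromBlocks G (G * (P.map f * Q'.map f * G')) 0 G', fromCols Q 0, fromRows 0 P', ?_,
    det_fromBlocks_zero₂₁ _ _ _, ?_⟩
  · rw [fromBlocks_map, fromBlocks_multiply, ← fromBlocks_one, ← Matrix.mul_assoc (M.map f), h1]
    simp [h1', Matrix.map_neg]
  · rw [fromCols_map, fromRows_map, fromCols_mul_fromBlocks, fromCols_mul_fromRows]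
    simp [Matrix.mul_assoc]

theorem Re.add {A B : Matrix l m K} (h : Re f c A) (h' : Re f c' B) : Re f (c * c') (A + B) := by
  obtain ⟨ν, _, _, M, G, Q, P, h1, rfl, rfl⟩ := h
  obtain ⟨ν', _, _, M', G', Q', P', h1', rfl, rfl⟩ := h'
  refine ⟨ν ⊕ ν', inferInstance, inferInstance, fromBlocks M 0 0 M',
    fromBlocks G 0 0 G', fromCols Q Q', fromRows P P', ?_, det_fromBlocks_zero₂₁ _ _ _, ?_⟩
  · rw [fromBlocks_map, fromBlocks_multiply, ← fromBlocks_one]
    simp [h1, h1']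
  · rw [fromCols_map, fromRows_map, fromCols_mul_fromBlocks, fromCols_mul_fromRows]
    simp

theorem Re.sub {l' m' : Type} {A : Matrix l m K} (h : Re f c A) (x : l' → l) (y : m' → m) :
    Re f c (A.submatrix x y) := by
  obtain ⟨ν, _, _, M, G, Q, P, h1, rfl, rfl⟩ := h
  exact ⟨ν, inferInstance, inferInstance, M, G, Q.submatrix x id, P.submatrix id y, h1, rfl, rfl⟩

theorem Re.map {R' K' : Type} [CommRing R'] [CommRing K'] {f' : R' →+* K'} (g : R →+* R')
    (h : K →+* K') (hc : ∀ x, f' (g x) = h (f x)) {A : Matrix l m K} (hA : Re f c A) :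
    Re f' (g c) (A.map h) := by
  obtain ⟨ν, _, _, M, G, Q, P, h1, rfl, rfl⟩ := hA
  have e : ∀ {a b : Type} (Z : Matrix a b R), (Z.map g).map f' = (Z.map f).map h := fun Z => by
    ext; simp [hc]
  refine ⟨ν, inferInstance, inferInstance, M.map g, G.map h, Q.map g, P.map g, ?_,
    (RingHom.map_det g M).symm, ?_⟩
  · rw [e, ← Matrix.map_mul, h1]; simp
  · rw [e, e, Matrix.map_mul, Matrix.map_mul]

theorem Re.det [Fintype l] [DecidableEq l] {A : Matrix l l K} (h : Re f c A) :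
    ∃ z : R, f z = f c * A.det := by
  obtain ⟨ν, _, _, M, G, Q, P, h1, rfl, rfl⟩ := h
  refine ⟨(fromBlocks M (-P) Q 0).det, ?_⟩
  have := schur' h1 (P.map f) (Q.map f) 0
  rw [zero_add] at this
  rw [RingHom.map_det, RingHom.map_det, RingHom.mapMatrix_apply, RingHom.mapMatrix_apply, this,
    fromBlocks_map]
  simp [Matrix.map_neg]

end

/-- The embedding of the integers. -/
abbrev zq : ℤ →+* ℚ := Int.castRingHom ℚ

theorem Re.diag {ε : Type} [Fintype ε] [DecidableEq ε] (a b : ε → ℤ) (hb : ∀ e, b e ≠ 0) :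
    Re zq (∏ e, b e) (diagonal fun e => (a e : ℚ) / b e) := by
  refine ⟨ε, inferInstance, inferInstance, diagonal b, diagonal fun e => (b e : ℚ)⁻¹, diagonal a, 1,
    ?_, det_diagonal, ?_⟩
  · rw [diagonal_map (map_zero _), diagonal_mul_diagonal, ← diagonal_one]
    congr 1
    funext e
    exact mul_inv_cancel₀ (Int.cast_ne_zero.2 (hb e))
  · rw [diagonal_map (map_zero _), diagonal_mul_diagonal]
    simp [div_eq_mul_inv]

variable {l : Type} [Fintype l] [DecidableEq l] {A B : Matrix l l ℚ} {c c' : ℤ}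

theorem core (h : Re zq c A) (h' : Re zq c' B) (π : ℤ) (μ : ℕ)
    (hr : (A - (π : ℚ) • B).rank + μ ≤ Fintype.card l) :
    ∃ χ : ℤ[X], ∀ (S : Type) [CommRing S] (φ : ℚ →+* S) (τ : S),
      (τ - π) ^ μ * χ.eval₂ (Int.castRingHom S) τ =
        (c * c' : ℤ) * (A.map φ - τ • B.map φ).det := by
  have hc : ∀ x : ℤ, mapRingHom zq (C x) = C (zq x) := fun x => by simp
  have h1 := (h.map C C hc).add
    ((Re.int (f := mapRingHom zq) (diagonal fun _ : l => -X)).mul (h'.map C C hc))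
  obtain ⟨ψ, hψ⟩ := h1.det
  have e : A.map C + (diagonal fun _ : l => (-X : ℤ[X])).map (mapRingHom zq) * B.map C =
      A.map C - (X : ℚ[X]) • B.map C := by
    rw [diagonal_map (map_zero _)]
    ext1 i j
    simp [sub_eq_add_neg]
  rw [e] at hψ
  have h2 := ord ℚ ℚ[X] l C (X - C (π : ℚ)) _ (A.map C - (X : ℚ[X]) • B.map C) μ
    (fun i j => ⟨-C (B i j), by simp; ring⟩) hr
  have h3 : ((X - C π) ^ μ).map zq ∣ ψ.map zq := by
    rw [← coe_mapRingHom, hψ]
    simpa using h2.mul_left _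
  obtain ⟨χ, rfl⟩ := (map_dvd_map zq zq.injective_int ((monic_X_sub_C π).pow μ)).1 h3
  refine ⟨χ, fun S _ φ τ => ?_⟩
  have h4 := congrArg (eval₂RingHom φ τ) hψ
  rw [map_mul (eval₂RingHom φ τ), RingHom.map_det] at h4
  have e2 : (eval₂RingHom φ τ).mapMatrix (A.map C - (X : ℚ[X]) • B.map C) =
      A.map φ - τ • B.map φ := by
    ext i j; simp; ring
  have e4 : ∀ a : ℤ, eval₂ φ τ (a : ℚ[X]) = a := fun a => map_intCast (eval₂RingHom φ τ) a
  have e3 : φ.comp zq = Int.castRingHom S := RingHom.ext_int _ _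
  rw [e2] at h4
  simpa [eval₂_map, e3, e4, eval₂_pow, eval₂_mul] using h4

theorem div (h : Re zq c A) (h' : Re zq c' B) (π : ℤ) (μ : ℕ)
    (hr : (A - (π : ℚ) • B).rank + μ ≤ Fintype.card l) :
    ∃ z : ℤ, (c * c' : ℤ) * A.det = (π ^ μ * z : ℤ) := by
  obtain ⟨χ, hχ⟩ := core h h' π μ hr
  refine ⟨(-1) ^ μ * χ.coeff 0, ?_⟩
  have := hχ ℚ (RingHom.id ℚ) 0
  simp only [zero_smul, sub_zero, eval₂_at_zero, RingHom.coe_id, Matrix.map_id] at this
  rw [← this, zero_sub, neg_pow]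
  simp; ring

theorem pl (h : Re zq c A) (h' : Re zq c' B) (π μ : ℕ)
    (hr : (A - (π : ℚ) • B).rank + μ ≤ Fintype.card l) (hc : c * c' ≠ 0) {τ₀ : ℚ}
    (h0 : (A - τ₀ • B).det ≠ 0) {β : ℝ}
    (hβ : ∀ τ : ℂ, ‖τ‖ = 1 → ‖((c * c' : ℤ) : ℂ) *
      (A.map (algebraMap ℚ ℂ) - τ • B.map (algebraMap ℚ ℂ)).det‖ ≤ β) : (π : ℝ) ^ μ ≤ β := by
  obtain ⟨χ, hχ⟩ := core h h' π μ (by simpa using hr)
  have h1 : χ ≠ 0 := by
    rintro rfl
    have := hχ ℚ (RingHom.id ℚ) τ₀
    simp only [eval₂_zero, mul_zero, RingHom.coe_id, Matrix.map_id] at this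
    exact mul_ne_zero (Int.cast_ne_zero.2 hc) h0 this.symm
  obtain ⟨w, hw, h2⟩ := sup1 ((X - C (π : ℂ)) ^ μ * χ.map (Int.castRingHom ℂ))
  have h3 : ∀ k : ℕ, (π : ℝ) ^ k ≤ ((X - C (π : ℂ)) ^ k).mahlerMeasure := fun k => by
    induction k with
    | zero => simp
    | succ k ih =>
      rw [pow_succ, pow_succ, mahlerMeasure_mul, mahlerMeasure_X_sub_C]
      exact mul_le_mul ih (by simp) (by positivity) (mahlerMeasure_nonneg _)
  have h4 := hβ w hw
  rw [← hχ ℂ (algebraMap ℚ ℂ) w] at h4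
  rw [mahlerMeasure_mul] at h2
  refine le_trans ?_ (h2.trans (le_of_eq_of_le ?_ h4))
  · exact (h3 μ).trans (le_mul_of_one_le_right (mahlerMeasure_nonneg _)
      (one_le_mahlerMeasure_of_ne_zero h1))
  · simp [eval_map]

end Pool.Agent.MP_5daf37_lc.HG

end

section

/-!
Rank inequalities: semicontinuity, block matrices, diagonal plus low rank.
-/

open Matrix Polynomial

namespace Pool.Agent.MP_5daf37_lc.HG
open FC

variable {K l m o : Type} [Field K] [Fintype l] [Fintype m] [Fintype o]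

theorem semi (E₀ E₁ : Matrix l m ℚ) {a : ℕ} (h : ∀ ε : ℚ, ε ≠ 0 → (E₀ + ε • E₁).rank ≤ a) :
    E₀.rank ≤ a := by
  by_contra h0
  obtain ⟨x, y, -, h1⟩ := exists_minor (Nat.succ_le_of_lt (not_le.1 h0))
  let ψ : ℚ[X] := ((E₀.submatrix x y).map C + (X : ℚ[X]) • (E₁.submatrix x y).map C).det
  have e : ∀ ε, ψ.eval ε = ((E₀ + ε • E₁).submatrix x y).det := fun ε => by
    rw [← coe_evalRingHom, RingHom.map_det]
    congr 1
    ext i j
    simp; ring
  have h2 : ψ = 0 := by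
    refine eq_zero_of_infinite_isRoot _ ((Set.finite_singleton (0 : ℚ)).infinite_compl.mono ?_)
    intro ε hε
    exact (e ε).trans (det_eq_zero_of_rank_lt (Nat.lt_succ_of_le (h ε hε)) x y)
  have := e 0
  rw [h2] at this
  exact h1 (by simpa using this.symm)

omit [Fintype l] in
theorem sylv (A : Matrix l m K) (B : Matrix m o K) :
    A.rank + B.rank ≤ (A * B).rank + Fintype.card m := by
  have h1 := LinearMap.finrank_range_add_finrank_ker A.mulVecLin
  have h2 := LinearMap.finrank_range_add_finrank_ker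
    (A.mulVecLin.domRestrict (LinearMap.range B.mulVecLin))
  rw [LinearMap.range_domRestrict, ← LinearMap.range_comp, ← mulVecLin_mul,
    LinearMap.ker_domRestrict] at h2
  have h3 : Module.finrank K ((LinearMap.ker A.mulVecLin).comap
      (LinearMap.range B.mulVecLin).subtype) ≤ Module.finrank K (LinearMap.ker A.mulVecLin) := by
    rw [← Submodule.finrank_map_subtype_eq, Submodule.map_comap_subtype]
    exact Submodule.finrank_mono inf_le_right
  rw [Module.finrank_fintype_fun_eq_card] at h1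
  unfold rank
  omega

theorem block [DecidableEq l] {H G : Matrix l l K} (h : H * G = 1) (U : Matrix l o K)
    (V : Matrix m l K) (Z : Matrix m o K) :
    Fintype.card l + (Z + V * G * U).rank ≤ (fromBlocks (-H) U V Z).rank := by
  classical
  obtain ⟨x, y, -, h1⟩ := exists_minor (le_refl (Z + V * G * U).rank)
  have h2 := schur' (show -H * -G = 1 by simpa using h) (-U.submatrix id y) (V.submatrix x id)
    (Z.submatrix x y)
  have h3 : (-H).det ≠ 0 :=
    (isUnit_det_of_right_inverse (show -H * -G = 1 by simpa using h)).ne_zero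
  have e1 : Z.submatrix x y + V.submatrix x id * -G * -U.submatrix id y =
      (Z + V * G * U).submatrix x y := by
    rw [Matrix.mul_neg, Matrix.mul_neg, Matrix.neg_mul, neg_neg]; rfl
  have e2 : fromBlocks (-H) (- -U.submatrix id y) (V.submatrix x id) (Z.submatrix x y) =
      (fromBlocks (-H) U V Z).submatrix (Sum.map id x) (Sum.map id y) := by
    ext (i | i) (j | j) <;> simp
  rw [e1, e2] at h2
  have h4 := rank_of_det_ne_zero (h2 ▸ mul_ne_zero h3 h1)
  have h5 := rank_submatrix_le (fromBlocks (-H) U V Z) (Sum.map id x) (Sum.map id y)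
  rw [h4, Fintype.card_sum, Fintype.card_fin] at h5
  exact h5

variable [DecidableEq m]

/-- The diagonal indicator matrix of a set. -/
def mk (T : Type) [CommRing T] (S : Finset m) : Matrix m m T :=
  diagonal fun e => if e ∈ S then 1 else 0

theorem rank_mk (S : Finset m) : (mk K S).rank ≤ S.card := by
  classical
  rw [mk, rank_diagonal, Fintype.card_subtype]
  exact Finset.card_le_card fun e he => by simpa using he

theorem mk_add (T : Type) [CommRing T] (S : Finset m) : mk T S + mk T Sᶜ = 1 := by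
  rw [mk, mk, diagonal_add, ← diagonal_one]
  congr 1
  funext e
  by_cases h : e ∈ S <;> simp [h]

omit [Fintype l] in
theorem rank_mul_mk (A : Matrix l m K) (S : Finset m) : A.rank ≤ (A * mk K S).rank + Sᶜ.card := by
  have := rank_add_le' (A * mk K S) (A * mk K Sᶜ)
  rw [← Matrix.mul_add, mk_add, Matrix.mul_one] at this
  exact this.trans (Nat.add_le_add_left ((rank_mul_le_right _ _).trans (rank_mk _)) _)

theorem rank_mk_mul (A : Matrix m o K) (S : Finset m) : A.rank ≤ (mk K S * A).rank + Sᶜ.card := by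
  have := rank_add_le' (mk K S * A) (mk K Sᶜ * A)
  rw [← Matrix.add_mul, mk_add, Matrix.one_mul] at this
  exact this.trans (Nat.add_le_add_left ((rank_mul_le_left _ _).trans (rank_mk _)) _)

theorem mk_apply {T : Type} [CommRing T] (S S' : Finset m) (A : Matrix m m T) (i j : m) :
    (mk T S * A * mk T S') i j = if i ∈ S ∧ j ∈ S' then A i j else 0 := by
  by_cases h : i ∈ S <;> by_cases h' : j ∈ S' <;> simp [mk, h, h']

theorem dlr (Q : Matrix m m K) (κ : ℕ) (h : ∀ I : Finset m, (mk K I * Q * mk K Iᶜ).rank ≤ κ) :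
    ∃ (S : Finset m) (Δ : m → K) (R : Matrix m m K), Sᶜ.card ≤ 2 * κ ∧ R.rank ≤ κ ∧
      mk K S * Q * mk K S = diagonal Δ + R := by
  let P : ℕ → Prop := fun k =>
    ∃ x y : Fin k → m, (∀ i j, x i ≠ y j) ∧ (Q.submatrix x y).det ≠ 0
  have hP : ∀ k, P k → k ≤ κ := by
    rintro k ⟨x, y, h1, h2⟩
    by_contra h3
    refine h2 (Eq.trans ?_ (det_eq_zero_of_rank_lt
      ((h (Finset.univ.image x)).trans_lt (not_le.1 h3)) x y))
    congr 1
    ext i j
    simp [mk_apply, h1]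
  obtain ⟨k, ⟨x, y, h1, h2⟩, h3⟩ : ∃ k, P k ∧ ¬ P (k + 1) := by
    by_contra h3
    have : ∀ k, P k := fun k => by
      induction k with
      | zero => exact ⟨Fin.elim0, Fin.elim0, fun i => i.elim0, by simp⟩
      | succ k ih => exact of_not_not fun h4 => h3 ⟨k, ih, h4⟩
    exact absurd (hP _ (this (κ + 1))) (by omega)
  have hk := hP k ⟨x, y, h1, h2⟩
  let S := (Finset.univ.image x ∪ Finset.univ.image y)ᶜ
  let R := Q.submatrix id y * (Q.submatrix x y)⁻¹ * Q.submatrix x id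
  refine ⟨S, fun e => if e ∈ S then Q e e - R e e else 0, mk K S * R * mk K S, ?_, ?_, ?_⟩
  · rw [compl_compl]
    have a1 := Finset.card_image_le (s := Finset.univ) (f := x)
    have a2 := Finset.card_image_le (s := Finset.univ) (f := y)
    have := Finset.card_union_le (Finset.univ.image x) (Finset.univ.image y)
    rw [Finset.card_univ, Fintype.card_fin] at a1 a2
    omega
  · have a1 : R.rank ≤ (Q.submatrix x id).rank := rank_mul_le_right _ _
    have a2 : (Q.submatrix x id).rank ≤ k := by simpa using rank_le_card_height (Q.submatrix x id)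
    have a3 := rank_mul_le_left (mk K S * R) (mk K S)
    have a4 := rank_mul_le_right (mk K S) R
    omega
  · ext i j
    rw [Matrix.add_apply, mk_apply, mk_apply, diagonal_apply]
    by_cases hij : i = j
    · subst hij
      by_cases hi : i ∈ S <;> simp [hi]
    rw [if_neg hij, zero_add]
    split_ifs with hS
    swap
    · rfl
    have hi : (∀ a, x a ≠ i) ∧ ∀ a, y a ≠ i := by simpa [S] using hS.1
    have hj : (∀ a, x a ≠ j) ∧ ∀ a, y a ≠ j := by simpa [S] using hS.2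
    let x' : Fin k ⊕ Fin 1 → m := Sum.elim x fun _ => i
    let y' : Fin k ⊕ Fin 1 → m := Sum.elim y fun _ => j
    have h4 : (Q.submatrix x' y').det = 0 := by
      rw [← det_submatrix_equiv_self finSumFinEquiv.symm]
      refine of_not_not fun h5 => h3 ⟨x' ∘ finSumFinEquiv.symm, y' ∘ finSumFinEquiv.symm,
        fun a b => ?_, h5⟩
      simp only [Function.comp]
      rcases finSumFinEquiv.symm a with a | a <;> rcases finSumFinEquiv.symm b with b | b
      exacts [h1 a b, hj.1 a, (hi.2 b).symm, hij]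
    have h5 := schur' (mul_nonsing_inv _ (Ne.isUnit h2)) (-Q.submatrix x fun _ : Fin 1 => j)
      (Q.submatrix (fun _ => i) y) (Q.submatrix (fun _ => i) fun _ => j)
    have e : fromBlocks (Q.submatrix x y) (- -Q.submatrix x fun _ : Fin 1 => j)
        (Q.submatrix (fun _ => i) y) (Q.submatrix (fun _ => i) fun _ => j) =
        Q.submatrix x' y' := by
      ext (a | a) (b | b) <;> simp [x', y']
    rw [e, h4, Matrix.mul_neg] at h5
    have h6 := (mul_eq_zero.1 h5).resolve_left h2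
    rw [det_unique, ← sub_eq_add_neg] at h6
    exact sub_eq_zero.1 h6

end Pool.Agent.MP_5daf37_lc.HG

end

section

/-!
Transfer matrices of small integral systems and the archimedean size of their minors.
-/

open Matrix

namespace Pool.Agent.MP_5daf37_lc.HG
open FC

/-- `Φ` is the transfer matrix of an integral system of determinant `d` and total size `s`. -/
def Small {κ : Type} [Fintype κ] (d : ℤ) (s : ℕ) (Φ : Matrix κ κ ℚ) : Prop :=
  ∃ (ν : Type) (_ : Fintype ν) (_ : DecidableEq ν) (M : Matrix ν ν ℤ) (G : Matrix ν ν ℚ)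
    (Q : Matrix κ ν ℤ) (P : Matrix ν κ ℤ) (ρ : ν → ℕ), M.map zq * G = 1 ∧ M.det = d ∧
    Φ = Q.map zq * G * P.map zq ∧ (∀ i, ∑ v, (Q i v).natAbs ≤ 1) ∧
    (∀ v, ∑ u, (M v u).natAbs + ∑ j, (P v j).natAbs ≤ 2 ^ ρ v) ∧ ∑ v, ρ v ≤ s

/-- The embedding of the rationals. -/
noncomputable abbrev qc : ℚ →+* ℂ := algebraMap ℚ ℂ

/-- All rows have sum of moduli at most one. -/
def L1 {a b : Type} [Fintype b] (A : Matrix a b ℂ) : Prop := ∀ i, ∑ j, ‖A i j‖ ≤ 1

theorem l1_mul {a b c : Type} [Fintype b] [Fintype c] (A : Matrix a b ℂ) {B : Matrix b c ℂ}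
    (h : L1 B) (i : a) : ∑ j, ‖(A * B) i j‖ ≤ ∑ k, ‖A i k‖ := by
  calc ∑ j, ‖(A * B) i j‖ ≤ ∑ j, ∑ k, ‖A i k‖ * ‖B k j‖ :=
        Finset.sum_le_sum fun j _ => (norm_sum_le _ _).trans (by simp)
    _ = ∑ k, ‖A i k‖ * ∑ j, ‖B k j‖ := by rw [Finset.sum_comm]; simp [Finset.mul_sum]
    _ ≤ _ := Finset.sum_le_sum fun k _ => mul_le_of_le_one_right (norm_nonneg _) (h k)

theorem L1.sq {a b : Type} [Fintype b] {A : Matrix a b ℂ} (h : L1 A) (i : a) :
    ∑ j, ‖A i j‖ ^ 2 ≤ 1 :=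
  (Finset.sum_sq_le_sq_sum_of_nonneg fun _ _ => norm_nonneg _).trans
    (pow_le_one₀ (Finset.sum_nonneg fun _ _ => norm_nonneg _) (h i))

theorem sum_inj {a b : Type} [Fintype a] [Fintype b] {y : a → b} (hy : Function.Injective y)
    (f : b → ℝ) (hf : ∀ k, 0 ≤ f k) : ∑ j, f (y j) ≤ ∑ k, f k := by
  exact (Finset.sum_map Finset.univ ⟨y, hy⟩ f).symm.trans_le
    (Finset.sum_le_sum_of_subset_of_nonneg (Finset.subset_univ _) fun k _ _ => hf k)

theorem L1.mk {m : Type} [Fintype m] [DecidableEq m] (S : Finset m) : L1 (mk ℂ S) := fun i => by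
  rw [Finset.sum_eq_single i (fun j _ h => by simp [HG.mk, h.symm]) (by simp)]
  by_cases h : i ∈ S <;> simp [HG.mk, h]

theorem L1.sub {a b a' b' : Type} [Fintype b] [Fintype b'] {A : Matrix a b ℂ} (h : L1 A)
    (x : a' → a) {y : b' → b} (hy : Function.Injective y) : L1 (A.submatrix x y) := fun i =>
  (sum_inj hy (fun k => ‖A (x i) k‖) fun _ => norm_nonneg _).trans (h _)

variable {κ μ ι : Type} [Fintype κ] [Fintype μ] [DecidableEq μ] [Fintype ι] [DecidableEq ι]
  {d : ℤ} {s : ℕ} {Φ : Matrix κ κ ℚ}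

theorem Small.re (h : Small d s Φ) : Re zq d Φ := by
  obtain ⟨ν, _, _, M, G, Q, P, ρ, h1, h2, h3, -⟩ := h
  exact ⟨ν, inferInstance, inferInstance, M, G, Q, P, h1, h2, h3⟩

theorem Small.ne (h : Small d s Φ) : d ≠ 0 := by
  obtain ⟨ν, _, _, M, G, Q, P, ρ, h1, rfl, -⟩ := h
  have := (isUnit_det_of_right_inverse h1).ne_zero
  rw [← RingHom.mapMatrix_apply, ← RingHom.map_det] at this
  simpa using this

theorem Small.two (h : Small d s Φ) {F₁ F₂ : Matrix μ κ ℂ} {G₁ G₂ : Matrix κ μ ℂ}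
    (Z : Matrix μ μ ℂ) (f₁ : L1 F₁) (f₂ : L1 F₂) (g₁ : L1 G₁) (g₂ : L1 G₂)
    (hZ : ∀ i, ∑ j, ‖Z i j‖ ^ 2 ≤ 2) :
    ‖(d : ℂ) ^ 2 * (Z + F₁ * Φ.map qc * G₁ + F₂ * Φ.map qc * G₂).det‖ ≤
      4 ^ s * 2 ^ Fintype.card μ := by
  obtain ⟨ν, _, _, M, G, Q, P, ρ, h1, rfl, rfl, hQ, hρ, hs⟩ := h
  let φ := Int.castRingHom ℂ
  have e : ∀ {a b : Type} (Z : Matrix a b ℤ), (Z.map zq).map qc = Z.map φ := fun Z => by
    ext; simp [φ]
  have n1 : ∀ {a b : Type} [Fintype b] (Z : Matrix a b ℤ) (i : a),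
      ∑ j, ‖Z.map φ i j‖ = (∑ j, (Z i j).natAbs : ℕ) := fun Z i => by
    simp [φ, Nat.cast_natAbs]
  have h2 : M.map φ * G.map qc = 1 := by rw [← e, ← Matrix.map_mul, h1]; simp
  have h3 := schur' (M := fromBlocks (M.map φ) 0 0 (M.map φ))
    (N := fromBlocks (G.map qc) 0 0 (G.map qc)) (by simp [fromBlocks_multiply, h2])
    (fromRows (P.map φ * G₁) (P.map φ * G₂)) (fromCols (F₁ * Q.map φ) (F₂ * Q.map φ)) Z
  rw [det_fromBlocks_zero₂₁, fromCols_mul_fromBlocks, fromCols_mul_fromRows, ← sq,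
    ← RingHom.mapMatrix_apply, ← RingHom.map_det] at h3
  simp only [Matrix.mul_zero, add_zero, zero_add, ← add_assoc, ← Matrix.mul_assoc] at h3
  simp only [Matrix.map_mul, e, ← Matrix.mul_assoc]
  refine (congrArg norm h3).trans_le ?_
  have q1 : L1 (Q.map φ) := fun i => by rw [n1]; exact_mod_cast hQ i
  have r1 : ∀ {G' : Matrix κ μ ℂ}, L1 G' → ∀ v,
      ∑ u, ‖M.map φ v u‖ ^ 2 + ∑ j, ‖(P.map φ * G') v j‖ ^ 2 ≤ (2 ^ ρ v) ^ 2 := fun {G'} g v => by
    have a1 := Finset.sum_sq_le_sq_sum_of_nonneg (s := Finset.univ) fun u _ =>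
      norm_nonneg (M.map φ v u)
    have a2 := Finset.sum_sq_le_sq_sum_of_nonneg (s := Finset.univ) fun j _ =>
      norm_nonneg ((P.map φ * G') v j)
    have a3 := l1_mul (P.map φ) g v
    have a4 : ∑ u, ‖M.map φ v u‖ + ∑ j, ‖P.map φ v j‖ ≤ 2 ^ ρ v := by
      rw [n1, n1]; exact_mod_cast hρ v
    have a5 : 0 ≤ ∑ u, ‖M.map φ v u‖ := by positivity
    have a6 : 0 ≤ ∑ j, ‖(P.map φ * G') v j‖ := by positivity
    have a7 := pow_le_pow_left₀ (add_nonneg a5 a6) ((add_le_add_right a3 _).trans a4) 2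
    nlinarith [mul_nonneg a5 a6]
  refine (Circ3.had _ (Sum.elim (Sum.elim (fun v => 2 ^ ρ v) fun v => 2 ^ ρ v) fun _ => 2)
    ?_ ?_).trans ?_
  · rintro ((v | v) | i) <;> simp
  · rintro ((v | v) | i)
    · simpa [Fintype.sum_sum_type] using r1 g₁ v
    · simpa [Fintype.sum_sum_type] using r1 g₂ v
    · have a1 := L1.sq (fun i => (l1_mul F₁ q1 i).trans (f₁ i)) i
      have a2 := L1.sq (fun i => (l1_mul F₂ q1 i).trans (f₂ i)) i
      have a3 := hZ i
      simp only [Fintype.sum_sum_type, fromBlocks_apply₂₁, fromBlocks_apply₂₂, Sum.elim_inr,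
        fromCols_apply_inl, fromCols_apply_inr]
      linarith
  · simp only [Fintype.prod_sum_type, Sum.elim_inl, Sum.elim_inr, Finset.prod_pow_eq_pow_sum,
      Finset.prod_const, Finset.card_univ]
    rw [← mul_pow, show (2 : ℝ) * 2 = 4 by norm_num]
    exact mul_le_mul_of_nonneg_right (pow_le_pow_right₀ (by norm_num) hs) (by positivity)

theorem Small.sq_le (h : Small d s Φ) : d ^ 2 ≤ 4 ^ s := by
  have := h.two (μ := Fin 0) (F₁ := 0) (F₂ := 0) (G₁ := 0) (G₂ := 0) 0 (fun i => i.elim0)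
    (fun i => i.elim0) (fun i => by simp) (fun i => by simp) fun i => i.elim0
  simp only [det_isEmpty, mul_one, norm_pow, Complex.norm_intCast, sq_abs, Fintype.card_fin,
    pow_zero] at this
  exact_mod_cast this

theorem Small.chain (h : Small d s Φ) {F₁ : Matrix ι κ ℂ} {G₁ : Matrix κ μ ℂ} {F₂ : Matrix μ κ ℂ}
    {G₂ : Matrix κ ι ℂ} (T : Matrix ι ι ℂ) (f₁ : L1 F₁) (f₂ : L1 F₂) (g₁ : L1 G₁) (g₂ : L1 G₂)
    (hT : ∀ i, ∑ j, ‖T i j‖ ^ 2 ≤ 1) :
    ‖(d : ℂ) ^ 2 * (F₂ * Φ.map qc * G₂ * T * (F₁ * Φ.map qc * G₁)).det‖ ≤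
      4 ^ s * 2 ^ (2 * Fintype.card ι + Fintype.card μ) := by
  have h1 := schur' (M := fromBlocks 1 0 (-T) 1) (N := fromBlocks 1 0 T 1)
    (by simp [fromBlocks_multiply]) (fromRows (F₁ * Φ.map qc * G₁) 0)
    (fromCols 0 (F₂ * Φ.map qc * G₂)) 0
  rw [det_fromBlocks_zero₁₂, fromCols_mul_fromBlocks, fromCols_mul_fromRows] at h1
  simp only [det_one, one_mul, Matrix.mul_zero, Matrix.zero_mul, add_zero, zero_add] at h1
  have h2 := h.two (μ := (ι ⊕ ι) ⊕ μ) (F₁ := fromRows (fromRows (-F₁) 0) 0) (F₂ := fromRows 0 F₂)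
    (G₁ := fromCols 0 G₁) (G₂ := fromCols (fromCols 0 G₂) 0)
    (fromBlocks (fromBlocks 1 0 (-T) 1) 0 0 0) ?_ ?_ ?_ ?_ ?_
  · rw [h1]
    convert h2 using 4
    · ext ((i | i) | i) ((j | j) | j) <;>
        simp [fromRows_mul, mul_fromCols]
    · simp [two_mul]
  · rintro ((i | i) | i)
    exacts [by simpa using f₁ i, by simp, by simp]
  · rintro (i | i)
    exacts [by simp, by simpa using f₂ i]
  · intro i; simpa [Fintype.sum_sum_type] using g₁ i
  · intro i; simpa [Fintype.sum_sum_type] using g₂ i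
  · rintro ((i | i) | i)
    · simp [Fintype.sum_sum_type, one_apply, apply_ite]
    · have := hT i
      simp [Fintype.sum_sum_type, one_apply, apply_ite]
      linarith
    · simp

end Pool.Agent.MP_5daf37_lc.HG

end

section

/-!
The pencil argument: the help edges diagonalize the matrix up to low rank.
-/

open Matrix

namespace Pool.Agent.MP_5daf37_lc.HG
open FC

variable {ι ε : Type} [Fintype ι] [DecidableEq ι] [Fintype ε] [DecidableEq ε]

omit [Fintype ε] in
theorem mk_map {T T' : Type} [CommRing T] [CommRing T'] (φ : T →+* T') (S : Finset ε) :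
    (mk T S).map φ = mk T' S := by
  rw [mk, mk, diagonal_map (map_zero _)]
  simp [apply_ite φ]

theorem Re.mk (S : Finset ε) : Re zq 1 (mk ℚ S) := mk_map zq S ▸ Re.int _

theorem reH {P : ℕ} (hP : P ≠ 0) (F G : Matrix ι ι ℤ) (q : ι → ℕ) (j : ℕ) :
    Re zq (P ^ ∑ e, (j - q e))
      (((P : ℚ) ^ j)⁻¹ • (F * diagonal (fun e => (P : ℤ) ^ q e) * G).map zq) := by
  have h := ((Re.int (f := zq) F).mul (Re.diag (fun e => (P : ℤ) ^ (q e - j))
    (fun e => (P : ℤ) ^ (j - q e)) fun e => by positivity)).mul (Re.int G)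
  rw [one_mul, mul_one, Finset.prod_pow_eq_pow_sum] at h
  convert h using 1
  rw [Matrix.map_mul, Matrix.map_mul, ← Matrix.smul_mul, ← Matrix.mul_smul,
    diagonal_map (map_zero _), ← diagonal_smul]
  congr 3
  funext e
  have : (P : ℚ) ^ q e * P ^ (j - q e) = P ^ (q e - j) * P ^ j := by
    rw [← pow_add, ← pow_add]; congr 1; omega
  simp only [Pi.smul_apply, eq_intCast, smul_eq_mul]
  push_cast
  field_simp
  linarith

theorem rowH {P k j : ℕ} (hP : P ≠ 0) {H : Matrix ι ι ℤ}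
    (hH : H * Hᵀ = ((P : ℤ) ^ k) • (1 : Matrix ι ι ℤ)) (hj : k ≤ 2 * j) (i : ι) :
    ∑ l, ‖(((P : ℚ) ^ j)⁻¹ • H.map zq).map qc i l‖ ^ 2 ≤ 1 := by
  have h1 : ∑ l, (H i l : ℝ) ^ 2 = (P : ℝ) ^ k := by
    have := congrFun (congrFun hH i) i
    simp only [mul_apply, transpose_apply, Matrix.smul_apply, one_apply_eq, smul_eq_mul, mul_one,
      ← sq] at this
    exact_mod_cast this
  have h2 : (P : ℝ) ^ k ≤ (P ^ j) ^ 2 := by
    rw [← pow_mul]
    exact pow_le_pow_right₀ (by exact_mod_cast Nat.pos_of_ne_zero hP) (by omega)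
  simp only [map_apply, Matrix.smul_apply, smul_eq_mul, map_mul, map_inv₀, map_pow, map_natCast,
    eq_intCast, map_intCast, norm_mul, norm_inv, norm_pow, Complex.norm_natCast,
    Complex.norm_intCast, mul_pow, sq_abs, ← Finset.mul_sum, h1, inv_pow]
  exact inv_mul_le_one_of_le₀ h2 (by positivity)

theorem pencil {d c : ℤ} {s π μ a : ℕ} {Φ E : Matrix ε ε ℚ} (hΦ : Small d s Φ) (hπ : π ≠ 0)
    (hE : Re zq c E) (hc : c ≠ 0) (hE' : ∀ i, ∑ l, ‖E.map qc i l‖ ^ 2 ≤ 1) (S S' : Finset ε)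
    (hμ : |(c : ℝ)| * (4 ^ s * 2 ^ Fintype.card ε) < (π : ℝ) ^ (μ + 1))
    (h : (mk ℚ S * Φ * mk ℚ S' - (π : ℚ) • E).rank ≤ a) (τ : ℚ) :
    (mk ℚ S * Φ * mk ℚ S' - τ • E).rank ≤ a + μ := by
  by_contra h0
  obtain ⟨x, y, hy, h1⟩ := exists_minor (Nat.succ_le_of_lt (not_le.1 h0))
  have h2 := ((Re.mk S).mul hΦ.re).mul (Re.mk S')
  rw [one_mul, mul_one] at h2
  refine absurd (pl (h2.sub x y) (hE.sub x y) π (μ + 1) ?_ (mul_ne_zero hΦ.ne hc) h1
    fun w hw => ?_) (not_le.2 hμ)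
  · have := (rank_submatrix_le _ x y).trans h
    rw [Fintype.card_fin]
    exact (Nat.add_le_add_right this _).trans (by omega)
  · have h3 := hΦ.two (F₂ := 0) (G₂ := 0) (-w • (E.map qc).submatrix x y)
      ((L1.mk S).sub x Function.injective_id) (fun i => by simp) ((L1.mk S').sub id hy)
      (fun i => by simp) fun i => by
        have := (sum_inj hy (fun l => ‖E.map qc (x i) l‖ ^ 2) fun _ => by positivity).trans
          (hE' _)
        simp only [Matrix.smul_apply, submatrix_apply, norm_smul, norm_neg, hw, one_mul]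
        linarith
    have e : -w • (E.map qc).submatrix x y + (mk ℂ S).submatrix x id * Φ.map qc *
        (mk ℂ S').submatrix id y + (0 : Matrix _ ε ℂ) * Φ.map qc * (0 : Matrix ε _ ℂ) =
        ((mk ℚ S * Φ * mk ℚ S').submatrix x y).map qc - w • (E.submatrix x y).map qc := by
      rw [Matrix.mul_zero, add_zero, neg_smul, neg_add_eq_sub, ← submatrix_map, Matrix.map_mul,
        Matrix.map_mul, mk_map, mk_map]
      rfl
    rw [e, norm_mul] at h3
    have h4 : ‖(d : ℂ)‖ ≤ ‖(d : ℂ) ^ 2‖ := by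
      rw [norm_pow, Complex.norm_intCast]
      exact le_self_pow₀ (by exact_mod_cast Int.one_le_abs hΦ.ne) two_ne_zero
    have h5 : (2 : ℝ) ^ Fintype.card (Fin (a + μ).succ) ≤ 2 ^ Fintype.card ε :=
      pow_le_pow_right₀ one_le_two (Fintype.card_le_of_injective y hy)
    rw [Int.cast_mul, mul_comm (d : ℂ), mul_assoc, norm_mul, Complex.norm_intCast, norm_mul]
    refine mul_le_mul_of_nonneg_left ?_ (abs_nonneg _)
    exact (mul_le_mul_of_nonneg_right h4 (norm_nonneg _)).trans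
      (h3.trans (mul_le_mul_of_nonneg_left h5 (by positivity)))

theorem limit {H G A : Matrix ι ι ℚ} (hG : H * G = 1) (U : Matrix ι ε ℚ) (V : Matrix ε ι ℚ)
    (N : Matrix ε ε ℚ) {b : ℕ}
    (h : ∀ τ : ℚ, (fromBlocks A U V N - τ • fromBlocks H 0 0 0).rank ≤ b) :
    Fintype.card ι + N.rank ≤ b ∧ Fintype.card ι + (V * G * U).rank ≤ b + N.rank := by
  constructor
  · have h1 := block hG 0 V N
    rw [Matrix.mul_zero, add_zero] at h1
    refine h1.trans (semi _ (fromBlocks A U 0 0) fun t ht => ?_)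
    refine le_of_eq_of_le (congrArg rank ?_)
      ((rank_mul_le_right (fromBlocks (t • (1 : Matrix ι ι ℚ)) 0 0 1) _).trans (h t⁻¹))
    rw [fromBlocks_smul, fromBlocks_smul, sub_eq_add_neg, fromBlocks_neg, fromBlocks_add,
      fromBlocks_add, fromBlocks_multiply]
    simp [smul_smul, ht, add_comm]
  · have h1 := block hG U V 0
    rw [zero_add] at h1
    refine h1.trans (semi _ (fromBlocks A 0 0 0) fun t ht => ?_)
    have h2 := rank_sub_le' (fromBlocks (t • (1 : Matrix ι ι ℚ)) 0 0 1 *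
      (fromBlocks A U V N - t⁻¹ • fromBlocks H 0 0 0) * fromBlocks 1 0 0 (t⁻¹ • (1 : Matrix ε ε ℚ)))
      (fromRows (0 : Matrix ι ε ℚ) (t⁻¹ • (1 : Matrix ε ε ℚ)) * N * fromCols (0 : Matrix ε ι ℚ) 1)
    refine le_of_eq_of_le (congrArg rank ?_) (h2.trans (add_le_add
      ((rank_mul_le_left _ _).trans ((rank_mul_le_right _ _).trans (h t⁻¹)))
      ((rank_mul_le_left _ _).trans (rank_mul_le_right _ _))))
    rw [fromBlocks_smul, fromBlocks_smul, sub_eq_add_neg, sub_eq_add_neg, fromBlocks_neg,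
      fromBlocks_add, fromBlocks_add, fromBlocks_multiply, fromBlocks_multiply, fromRows_mul,
      fromRows_mul_fromCols, fromBlocks_neg, fromBlocks_add]
    simp [smul_smul, ht, add_comm]

omit [Fintype ε] in
theorem mk_sum {T : Type} [CommRing T] (I : Finset ε) :
    mk T ((Finset.univ : Finset ι).disjSum I) = fromBlocks 1 0 0 (mk T I) := by
  ext (i | i) (j | j) <;> simp [mk, diagonal_apply, one_apply]

theorem mk_mul {T : Type} [CommRing T] (I J : Finset ε) : mk T I * mk T J = mk T (I ∩ J) := by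
  rw [mk, mk, mk, diagonal_mul_diagonal]
  congr 1
  funext e
  by_cases h : e ∈ I <;> simp [h]

omit [Fintype ε] in
theorem mk_empty {T : Type} [CommRing T] : mk T (∅ : Finset ε) = 0 := by simp [mk]

theorem mk_univ {T : Type} [CommRing T] : mk T (Finset.univ : Finset ε) = 1 := by simp [mk]

theorem start {K : Type} [Field K] {H A : Matrix ι ι K} {U : Matrix ι ε K} {V V' : Matrix ε ι K}
    {N : Matrix ε ε K} {y : ε → K} (h1 : H = A + U * diagonal y * V')
    (h2 : V' = V + N * diagonal y * V') (I : Finset ε) :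
    (fromBlocks A (U * mk K Iᶜ) (mk K I * V) (mk K I * N * mk K Iᶜ) -
      fromBlocks H 0 0 0).rank ≤ Fintype.card ε := by
  have a1 : mk K I * mk K I = mk K I := by rw [mk_mul, Finset.inter_self]
  have a2 : mk K Iᶜ * mk K Iᶜ = mk K Iᶜ := by rw [mk_mul, Finset.inter_self]
  have a3 : mk K I * mk K Iᶜ = 0 := by rw [mk_mul, Finset.inter_compl, mk_empty]
  have a4 : mk K Iᶜ * mk K I = 0 := by rw [mk_mul, Finset.inter_comm, Finset.inter_compl, mk_empty]
  have a5 : diagonal y * mk K I = mk K I * diagonal y := commute_diagonal _ _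
  have a6 := mk_add K I
  have a7 : V = V' - N * diagonal y * V' := eq_sub_of_add_eq h2.symm
  generalize mk K I = D at *
  generalize mk K Iᶜ = D' at *
  generalize diagonal y = Y at *
  have b1 : (D' - Y * D) * (D - D' * Y) = -Y := by
    rw [Matrix.sub_mul, Matrix.mul_sub, Matrix.mul_sub, a4, ← Matrix.mul_assoc D', a2,
      Matrix.mul_assoc Y D D, a1, Matrix.mul_assoc Y D, ← Matrix.mul_assoc D, a3, a5,
      eq_sub_of_add_eq' a6]
    noncomm_ring
  have b2 : (D' - Y * D) * D' = D' := by rw [Matrix.sub_mul, a2, Matrix.mul_assoc, a3]; simp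
  have b3 : D * (D - D' * Y) = D := by rw [Matrix.mul_sub, a1, ← Matrix.mul_assoc, a3]; simp
  refine le_of_eq_of_le (congrArg rank ?_) ((rank_mul_le_left
    (fromRows (U * (D' - Y * D)) (D + D * N * (D' - Y * D)))
    (fromCols ((D - D' * Y) * V') D')).trans (rank_le_card_width _))
  rw [fromRows_mul_fromCols, sub_eq_add_neg, fromBlocks_neg, fromBlocks_add]
  simp only [Matrix.add_mul, Matrix.mul_assoc, b2, a3, neg_zero, add_zero, zero_add]
  simp only [← Matrix.mul_assoc (D' - Y * D), ← Matrix.mul_assoc D (D - D' * Y), b1, b3]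
  rw [h1, a7]
  simp [Matrix.mul_add, Matrix.mul_assoc, sub_eq_add_neg]

end Pool.Agent.MP_5daf37_lc.HG

end

section

/-!
Diagonal plus low rank form of the matrix seen through the help edges.
-/

open Matrix

namespace Pool.Agent.MP_5daf37_lc.HG
open FC

variable {ι ε : Type} [Fintype ι] [DecidableEq ι] [Fintype ε] [DecidableEq ε]

theorem rank_qc (M : Matrix ι ε ℚ) : (M.map qc).rank = M.rank :=
  le_antisymm (by simpa using rank_spec (RingHom.id ℚ) Function.injective_id qc M)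
    (by simpa using rank_spec qc qc.injective (RingHom.id ℚ) M)

theorem mk_blocks {T : Type} [CommRing T] (A : Matrix ι ι T) (U : Matrix ι ε T) (V : Matrix ε ι T)
    (N : Matrix ε ε T) (I J : Finset ε) :
    mk T (Finset.univ.disjSum I) * fromBlocks A U V N * mk T (Finset.univ.disjSum J) =
      fromBlocks A (U * mk T J) (mk T I * V) (mk T I * N * mk T J) := by
  rw [mk_sum, mk_sum, fromBlocks_multiply, fromBlocks_multiply]
  simp

theorem stepB {P k j μ κ s : ℕ} (hP : P ≠ 0) {H F G : Matrix ι ι ℤ} {q : ι → ℕ}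
    (hH : H * Hᵀ = ((P : ℤ) ^ k) • (1 : Matrix ι ι ℤ))
    (hF : H = F * diagonal (fun e => (P : ℤ) ^ q e) * G) (hj : k ≤ 2 * j)
    {A : Matrix ι ι ℚ} {U : Matrix ι ε ℚ} {V : Matrix ε ι ℚ} {N : Matrix ε ε ℚ} {d : ℤ}
    (hΦ : Small d s (fromBlocks A U V N)) {y : ε → ℂ} {V' : Matrix ε ι ℂ} {U' : Matrix ι ε ℂ}
    (h1 : (H.map zq).map qc = A.map qc + U.map qc * diagonal y * V')
    (h2 : V' = V.map qc + N.map qc * diagonal y * V')
    (h3 : (H.map zq).map qc = A.map qc + U' * diagonal y * V.map qc)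
    (hμ : (P : ℝ) ^ (∑ e, (j - q e)) * (4 ^ s * 2 ^ (Fintype.card ι + Fintype.card ε)) <
      (P ^ j) ^ (μ + 1))
    (hκ : 2 * (Fintype.card ε + μ) ≤ κ + 2 * Fintype.card ι) :
    ∃ (S : Finset ε) (Δ : ε → ℚ) (R : Matrix ε ε ℚ), R.rank ≤ κ ∧
      mk ℚ S * (V * Hᵀ.map zq * U) * mk ℚ S = diagonal Δ + R ∧
      Fintype.card ι ≤ (mk ℚ S * (V * Hᵀ.map zq * U) * mk ℚ S).rank + 2 * μ + 4 * κ := by
  have p0 : ∀ a : ℕ, (P : ℚ) ^ a ≠ 0 := fun a => by positivity
  have hG : H.map zq * (((P : ℚ) ^ k)⁻¹ • Hᵀ.map zq) = 1 := by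
    rw [Matrix.mul_smul, ← Matrix.map_mul, hH]
    ext i l
    rw [Matrix.smul_apply, map_apply, Matrix.smul_apply, one_apply, one_apply]
    split_ifs <;> simp [p0]
  have hs : ∀ {a b : Type} [Fintype b] (M : Matrix a b ℚ), (((P : ℚ) ^ k)⁻¹ • M).rank = M.rank :=
    fun M => rank_smul_of_mem_nonZeroDivisors M (mem_nonZeroDivisors_of_ne_zero (inv_ne_zero (p0 k)))
  let E : Matrix (ι ⊕ ε) (ι ⊕ ε) ℚ := fromBlocks (((P : ℚ) ^ j)⁻¹ • H.map zq) 0 0 0
  have e1 : ∀ τ : ℚ, (τ * P ^ j) • E = τ • fromBlocks (H.map zq) 0 0 0 := fun τ => by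
    simp [E, fromBlocks_smul, smul_smul, p0]
  have hE : Re zq (P ^ ∑ e, (j - q e)) E := by
    have := ((Re.int (f := zq) (fromRows (1 : Matrix ι ι ℤ) (0 : Matrix ε ι ℤ))).mul
      (reH hP F G q j)).mul (Re.int (fromCols (1 : Matrix ι ι ℤ) (0 : Matrix ι ε ℤ)))
    rw [one_mul, mul_one, ← hF, fromRows_map, fromCols_map, fromRows_mul,
      fromRows_mul_fromCols] at this
    simpa [E] using this
  have key : ∀ (I J : Finset ε) (a : ℕ), (fromBlocks (A.map qc) (U.map qc * mk ℂ J)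
      (mk ℂ I * V.map qc) (mk ℂ I * N.map qc * mk ℂ J) -
        fromBlocks ((H.map zq).map qc) 0 0 0).rank ≤ a →
      Fintype.card ι + (mk ℚ I * N * mk ℚ J).rank ≤ a + μ ∧
      Fintype.card ι + (mk ℚ I * (V * Hᵀ.map zq * U) * mk ℚ J).rank ≤
        a + μ + (mk ℚ I * N * mk ℚ J).rank := fun I J a h => by
    have h4 := pencil (π := P ^ j) (μ := μ) (a := a) hΦ (by positivity) hE (by positivity)
      (by
        rintro (i | i)
        · simpa [E, Fintype.sum_sum_type, mul_pow] using rowH hP hH hj i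
        · simp [E, Fintype.sum_sum_type]) (Finset.univ.disjSum I) (Finset.univ.disjSum J)
      (by simpa using hμ) (by
        rw [← rank_qc, mk_blocks, Nat.cast_pow, ← one_mul ((P : ℚ) ^ j), e1, one_smul,
          Matrix.map_sub _ (map_sub qc), fromBlocks_map, fromBlocks_map]
        simpa only [Matrix.map_mul, mk_map, Matrix.map_zero _ (map_zero qc)] using h)
    have h5 := limit hG (U * mk ℚ J) (mk ℚ I * V) (mk ℚ I * N * mk ℚ J) fun τ => by
      rw [← e1, ← mk_blocks]; exact h4 _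
    rw [Matrix.mul_smul, Matrix.smul_mul, hs] at h5
    simpa only [Matrix.mul_assoc] using h5
  have k1 := (key ∅ Finset.univ U.rank ?_).1
  have k2 := (key Finset.univ ∅ V.rank ?_).1
  · obtain ⟨S, Δ, R, r1, r2, r3⟩ := dlr (V * Hᵀ.map zq * U) κ fun I => by
      have := key I Iᶜ _ (start h1 h2 I)
      omega
    refine ⟨S, Δ, R, r2, r3, ?_⟩
    have a1 := sylv (V * Hᵀ.map zq) U
    have a2 := sylv V (Hᵀ.map zq)
    have a3 := rank_of_det_ne_zero (isUnit_det_of_left_inverse hG).ne_zero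
    have a4 := rank_mk_mul (V * Hᵀ.map zq * U) S
    have a5 := rank_mul_mk (mk ℚ S * (V * Hᵀ.map zq * U)) S
    rw [hs] at a3
    omega
  · rw [← rank_qc V]
    refine le_of_eq_of_le (congrArg rank ?_) ((rank_mul_le_left
      (fromRows (-(U' * diagonal y)) 1 * V.map qc) (fromCols 1 (0 : Matrix ι ε ℂ))).trans
      (rank_mul_le_right _ _))
    rw [h3, fromRows_mul, fromRows_mul_fromCols, sub_eq_add_neg, fromBlocks_neg, fromBlocks_add]
    simp [mk_empty, mk_univ]
  · rw [← rank_qc U]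
    refine le_of_eq_of_le (congrArg rank ?_) ((rank_mul_le_left
      (fromRows 1 (0 : Matrix ε ι ℂ) * U.map qc) (fromCols (-(diagonal y * V')) 1)).trans
      (rank_mul_le_right _ _))
    rw [h1, fromRows_mul, fromRows_mul_fromCols, sub_eq_add_neg, fromBlocks_neg, fromBlocks_add]
    simp [mk_empty, mk_univ, Matrix.mul_assoc]

end Pool.Agent.MP_5daf37_lc.HG

end

section

/-!
The valuations of the diagonal part: few are low, and few are high.
-/

open Matrix

namespace Pool.Agent.MP_5daf37_lc.HG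
open FC

variable {ι ε : Type} [Fintype ι] [DecidableEq ι] [Fintype ε] [DecidableEq ε]
  {P k j κ s θ : ℕ} {H F G : Matrix ι ι ℤ} {q : ι → ℕ} {A : Matrix ι ι ℚ} {U : Matrix ι ε ℚ}
  {V : Matrix ε ι ℚ} {N : Matrix ε ε ℚ} {d : ℤ} {S : Finset ε} {Δ : ε → ℚ} {R : Matrix ε ε ℚ}

theorem Small.reV (hΦ : Small d s (fromBlocks A U V N)) : Re zq d V := hΦ.re.sub Sum.inr Sum.inl

theorem Small.reU (hΦ : Small d s (fromBlocks A U V N)) : Re zq d U := hΦ.re.sub Sum.inl Sum.inr

theorem dvd_of_prod {l : Type} [Fintype l] (hP : P.Prime) {b : l → ℤ} (hb : ∀ i, ¬ (P : ℤ) ∣ b i)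
    {a : ℕ} {z : ℤ} (h : (P : ℤ) ^ a ∣ (∏ i, b i) * z) : (P : ℤ) ^ a ∣ z :=
  (Nat.prime_iff_prime_int.1 hP).pow_dvd_of_dvd_mul_left a (fun h1 => by
    obtain ⟨i, -, h2⟩ := ((Nat.prime_iff_prime_int.1 hP).dvd_finsetProd_iff _).1 h1
    exact hb i h2) h

theorem low (hP : P.Prime) (hF : H = F * diagonal (fun e => (P : ℤ) ^ q e) * G)
    (hΦ : Small d s (fromBlocks A U V N)) (hR : R.rank ≤ κ)
    (hQ : mk ℚ S * (V * H.map zq * U) * mk ℚ S = diagonal Δ + R) (w μ : ℕ)
    (hμ : (Finset.univ.filter fun e => q e < θ + w).card + κ + μ ≤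
      (Finset.univ.filter fun e => P ∣ (Δ e / P ^ θ).den).card) : P ^ (w * μ) ≤ 4 ^ s := by
  set T := Finset.univ.filter fun e => q e < θ + w with hT
  set L := Finset.univ.filter fun e => P ∣ (Δ e / P ^ θ).den with hL
  have p0 : (P : ℚ) ^ θ ≠ 0 := pow_ne_zero _ (Nat.cast_ne_zero.2 hP.ne_zero)
  have hb : ∀ e : L, ¬ (P : ℤ) ∣ (Δ e / P ^ θ).num := fun e h =>
    hP.one_lt.ne' (Nat.eq_one_of_dvd_coprimes (Δ e / P ^ θ).reduced (Int.natCast_dvd.1 h)
      (Finset.mem_filter.1 e.2).2)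
  have hb0 : ∀ e : L, (Δ e / P ^ θ).num ≠ 0 := fun e h => hb e (h ▸ dvd_zero _)
  let H₂ := F * diagonal (fun e => if e ∈ T then 0 else (P : ℤ) ^ (q e - (θ + w))) * G
  let R₂ := F.map zq * diagonal (fun e => (P : ℚ) ^ q e) * mk ℚ T * G.map zq
  have e1 : H.map zq = R₂ + (P : ℚ) ^ (θ + w) • H₂.map zq := by
    have : (diagonal fun e => (P : ℤ) ^ q e).map zq = diagonal (fun e => (P : ℚ) ^ q e) * mk ℚ T +
        (P : ℚ) ^ (θ + w) •
          (diagonal fun e => if e ∈ T then 0 else (P : ℤ) ^ (q e - (θ + w))).map zq := by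
      rw [diagonal_map (map_zero zq), diagonal_map (map_zero zq), mk, diagonal_mul_diagonal,
        ← diagonal_smul, diagonal_add]
      congr 1
      funext e
      by_cases h : q e < θ + w
      · simp [hT, h]
      · simp [hT, h, ← pow_add, Nat.add_sub_cancel' (not_lt.1 h)]
    rw [hF]
    simp only [R₂, H₂, Matrix.map_mul, this, Matrix.mul_add, Matrix.add_mul, Matrix.mul_smul,
      Matrix.smul_mul, Matrix.mul_assoc]
  have h1 := (Re.diag (fun e : L => ((Δ e / P ^ θ).den : ℤ)) _ hb0).mul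
    (((Re.mk S).mul (((hΦ.reV.mul (Re.int H₂)).mul hΦ.reU))).mul (Re.mk S) |>.sub
      (Subtype.val : L → ε) (Subtype.val : L → ε))
  obtain ⟨z, hz⟩ := div (Re.mk Finset.univ) h1 (P ^ w) μ (by
    have a1 := rank_mul_le_right (diagonal fun e : L => (Δ e)⁻¹)
      ((mk ℚ S * (V * R₂ * U) * mk ℚ S - R).submatrix (Subtype.val : L → ε) (Subtype.val : L → ε))
    have a2 := rank_submatrix_le (mk ℚ S * (V * R₂ * U) * mk ℚ S - R) (Subtype.val : L → ε)
      (Subtype.val : L → ε)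
    have a3 := rank_sub_le' (mk ℚ S * (V * R₂ * U) * mk ℚ S) R
    have a4 : (mk ℚ S * (V * R₂ * U) * mk ℚ S).rank ≤ T.card :=
      (rank_mul_le_left _ _).trans ((rank_mul_le_right _ _).trans ((rank_mul_le_left _ _).trans
        ((rank_mul_le_right _ _).trans ((rank_mul_le_left _ _).trans
          ((rank_mul_le_right _ _).trans (rank_mk _))))))
    have e2 : mk ℚ S * (V * R₂ * U) * mk ℚ S - R = diagonal Δ -
        (P : ℚ) ^ (θ + w) • (mk ℚ S * (V * H₂.map zq * U) * mk ℚ S) := by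
      rw [eq_sub_iff_add_eq, sub_add_eq_add_sub, sub_eq_iff_eq_add, ← hQ, e1]
      simp only [Matrix.mul_add, Matrix.add_mul, Matrix.mul_smul, Matrix.smul_mul]
    rw [e2] at a1 a2 a3
    rw [Fintype.card_coe]
    refine le_trans (Nat.add_le_add_right (le_of_eq_of_le (congrArg rank ?_) (a1.trans a2)) _)
      (by omega)
    ext a b
    have b1 : Δ a / P ^ θ ≠ 0 := Rat.num_ne_zero.1 (hb0 a)
    have b2 : Δ a ≠ 0 := (div_ne_zero_iff.1 b1).1
    have b3 : (((Δ a / P ^ θ).den : ℤ) : ℚ) / (Δ a / P ^ θ).num = P ^ θ / Δ a := by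
      rw [← inv_div, Int.cast_natCast, Rat.num_div_den, inv_div]
    generalize mk ℚ S * (V * H₂.map zq * U) * mk ℚ S = X
    simp only [mk_univ, Matrix.sub_apply, Matrix.smul_apply, diagonal_mul, submatrix_apply, b3,
      one_apply, diagonal_apply, Subtype.val_inj, smul_eq_mul]
    push_cast
    split_ifs <;> field_simp <;> ring)
  rw [mk_univ, det_one, mul_one, Int.cast_inj, ← pow_mul] at hz
  have h2 := dvd_of_prod hP hb (a := w * μ) (z := d ^ 2) ⟨z, by rw [← hz]; ring⟩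
  exact_mod_cast (Int.le_of_dvd (sq_pos_of_ne_zero hΦ.ne) h2).trans hΦ.sq_le

theorem high (hP : P.Prime) (hH : H * Hᵀ = ((P : ℤ) ^ k) • (1 : Matrix ι ι ℤ))
    (hF : H = F * diagonal (fun e => (P : ℤ) ^ q e) * G) {j' w w' : ℕ} (hj : k ≤ 2 * (j' + w'))
    (hΦ : Small d s (fromBlocks A U V N)) (hR : R.rank ≤ κ)
    (hQ : mk ℚ S * (V * H.map zq * U) * mk ℚ S = diagonal Δ + R) (r μ : ℕ) (hμ : κ + μ ≤ r)
    (hr : r + (Finset.univ.filter fun e => P ∣ (Δ e / P ^ (j' + (w + w'))).den).card ≤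
      (mk ℚ S * (V * H.map zq * U) * mk ℚ S).rank) :
    (P : ℝ) ^ ((w + w') * μ) ≤
      P ^ (∑ e, (j' - q e) + w' * r) * (4 ^ s * 2 ^ (2 * Fintype.card ι + r)) := by
  set L := Finset.univ.filter fun e => P ∣ (Δ e / P ^ (j' + (w + w'))).den with hL
  have p0 : ∀ a : ℕ, (P : ℚ) ^ a ≠ 0 := fun a => pow_ne_zero _ (Nat.cast_ne_zero.2 hP.ne_zero)
  have a1 := rank_mul_mk (mk ℚ S * (V * H.map zq * U) * mk ℚ S) Lᶜ
  rw [compl_compl] at a1
  obtain ⟨x, y, hy, h0⟩ := exists_minor (A := mk ℚ S * (V * H.map zq * U) * mk ℚ S * mk ℚ Lᶜ)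
    (r := r) (by omega)
  let b : ε → ℤ := fun e => if e ∈ L then 1 else (Δ e / P ^ (j' + (w + w'))).den
  have hb : ∀ e, ¬ (P : ℤ) ∣ b e := fun e => by
    by_cases h : e ∈ L
    · simpa [b, h] using fun h1 => hP.one_lt.ne' (Nat.dvd_one.1 (Int.natCast_dvd.1 h1))
    · simp only [b, if_neg h, Int.natCast_dvd_natCast]
      simpa [hL] using h
  have e1 : ∀ c : ℚ, mk ℚ S * V * (c • H.map zq) * (U * mk ℚ (S ∩ Lᶜ)) =
      c • (mk ℚ S * (V * H.map zq * U) * mk ℚ S * mk ℚ Lᶜ) := fun c => by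
    simp only [← mk_mul, Matrix.mul_smul, Matrix.smul_mul, Matrix.mul_assoc]
  have h1 := ((((Re.mk S).mul hΦ.reV).mul (reH hP.ne_zero F G q j')).mul
    (hΦ.reU.mul (Re.mk (S ∩ Lᶜ)))).sub x y
  rw [← hF, e1] at h1
  obtain ⟨z, hz⟩ := div h1 ((Re.diag (fun e => if e ∈ L then 0 else (Δ e / P ^ (j' + (w + w'))).num)
    b fun e h => hb e (h ▸ dvd_zero _)).sub x y) (P ^ (w + w')) μ (by
      have a2 := rank_submatrix_le (((P : ℚ) ^ j')⁻¹ • (1 : Matrix ε ε ℚ) * R * mk ℚ Lᶜ) x y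
      have a3 := (rank_mul_le_left (((P : ℚ) ^ j')⁻¹ • (1 : Matrix ε ε ℚ) * R) (mk ℚ Lᶜ)).trans
        (rank_mul_le_right _ _)
      rw [Fintype.card_fin]
      refine le_trans (Nat.add_le_add_right (le_of_eq_of_le (congrArg rank ?_) (a2.trans a3)) _)
        (by omega)
      rw [hQ]
      ext i l
      simp only [mk, Matrix.sub_apply, Matrix.smul_apply, submatrix_apply, mul_diagonal, b,
        Matrix.add_apply, diagonal_apply, Matrix.smul_mul, Matrix.one_mul, smul_eq_mul,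
        Finset.mem_compl]
      by_cases h : x i = y l
      · rw [h]
        by_cases h' : y l ∈ L
        · simp [h']
        · simp only [h', if_true, if_false, not_false_eq_true, Int.cast_natCast, Rat.num_div_den]
          push_cast
          rw [pow_add (P : ℚ) j']
          field_simp [p0]
          ring
      · simp [h])
  obtain ⟨z₀, hz₀⟩ := h1.det
  rw [eq_intCast, eq_intCast] at hz₀
  have h2 : (P : ℤ) ^ ((w + w') * μ) ∣ z₀ := dvd_of_prod hP hb ⟨z, by
    rw [← Int.cast_inj (α := ℚ), pow_mul, ← hz, Int.cast_mul, Int.cast_mul _ (∏ e, b e), hz₀]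
    ring⟩
  rw [submatrix_smul, Pi.smul_apply, Pi.smul_apply, det_smul, Fintype.card_fin] at hz₀
  have h3 : z₀ ≠ 0 := by
    rw [← Int.cast_ne_zero (α := ℚ), hz₀]
    have := hΦ.ne
    have := p0 j'
    have := hP.ne_zero
    positivity
  have h4 : (P : ℝ) ^ ((w + w') * μ) ≤ ‖qc z₀‖ := by
    rw [map_intCast, Complex.norm_intCast]
    exact_mod_cast Int.le_of_dvd (abs_pos.2 h3) ((dvd_abs _ _).2 h2)
  have h5 := hΦ.chain ((((P : ℚ) ^ (j' + w'))⁻¹ • H.map zq).map qc)
    ((L1.mk (Finset.univ.disjSum S)).sub Sum.inl Function.injective_id)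
    ((L1.mk (Finset.univ.disjSum S)).sub (Sum.inr ∘ x) Function.injective_id)
    ((L1.mk (Finset.univ.disjSum (S ∩ Lᶜ))).sub id (Sum.inr_injective.comp hy))
    ((L1.mk (Finset.univ.disjSum (S ∩ Lᶜ))).sub id Sum.inl_injective) (rowH hP.ne_zero hH hj)
  have e2 : ∀ {a b : Type} (x : a → ι ⊕ ε) (y : b → ι ⊕ ε),
      (mk ℂ (Finset.univ.disjSum S)).submatrix x id * (fromBlocks A U V N).map qc *
        (mk ℂ (Finset.univ.disjSum (S ∩ Lᶜ))).submatrix id y =
      ((fromBlocks A (U * mk ℚ (S ∩ Lᶜ)) (mk ℚ S * V)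
        (mk ℚ S * N * mk ℚ (S ∩ Lᶜ))).submatrix x y).map qc := fun x y => by
    rw [← mk_blocks, ← submatrix_map, Matrix.map_mul, Matrix.map_mul, mk_map, mk_map]
    rfl
  rw [e2, e2, ← Matrix.map_mul, ← Matrix.map_mul, ← RingHom.mapMatrix_apply, ← RingHom.map_det,
    Fintype.card_fin] at h5
  have e3 := congrArg (fun M => (submatrix M x y).det) (e1 ((P : ℚ) ^ (j' + w'))⁻¹)
  simp only [submatrix_smul, Pi.smul_apply, det_smul, Fintype.card_fin] at e3
  refine h4.trans (le_of_eq_of_le ?_ (mul_le_mul_of_nonneg_left h5 (by positivity)))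
  rw [show (P : ℝ) ^ (∑ e, (j' - q e) + w' * r) = ‖qc (P ^ (∑ e, (j' - q e) + w' * r))‖ by simp,
    ← norm_mul, ← map_intCast qc d, ← map_pow, ← map_mul, ← map_mul, hz₀]
  congr 2
  refine Eq.trans ?_ (congrArg (fun t => _ * (_ * t)) e3.symm)
  push_cast
  rw [pow_add, pow_add, pow_mul, mul_inv, mul_pow, inv_pow, inv_pow]
  field_simp [p0]

end Pool.Agent.MP_5daf37_lc.HG

end

section

/-!
The numerical assembly.
-/

open Matrix

namespace Pool.Agent.MP_5daf37_lc.HG
open FC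

variable {ι ε : Type} [Fintype ι] [DecidableEq ι] [Fintype ε] [DecidableEq ε]

theorem abs_bound {P k j u s : ℕ} (hP : P.Prime) {H F G : Matrix ι ι ℤ} {q : ι → ℕ}
    (hH : H * Hᵀ = ((P : ℤ) ^ k) • (1 : Matrix ι ι ℤ))
    (hH' : Hᵀ * H = ((P : ℤ) ^ k) • (1 : Matrix ι ι ℤ))
    (hF : H = F * diagonal (fun e => (P : ℤ) ^ q e) * G) (hj : k ≤ 2 * j)
    {A : Matrix ι ι ℚ} {U : Matrix ι ε ℚ} {V : Matrix ε ι ℚ} {N : Matrix ε ε ℚ} {d : ℤ}
    (hΦ : Small d s (fromBlocks A U V N)) {y : ε → ℂ} {V' : Matrix ε ι ℂ} {U' : Matrix ι ε ℂ}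
    (h1 : (H.map zq).map qc = A.map qc + U.map qc * diagonal y * V')
    (h2 : V' = V.map qc + N.map qc * diagonal y * V')
    (h3 : (H.map zq).map qc = A.map qc + U' * diagonal y * V.map qc)
    (hm : 200 * Fintype.card ε ≤ 201 * Fintype.card ι) (hu : 79 ≤ u) (hk : 1600 * u ^ 2 ≤ k)
    (hk' : k ≤ 1600 * (u + 1) ^ 2)
    (t1 : 4 * (Finset.univ.filter fun e => q e < j + 10 * u).card ≤ 3 * Fintype.card ι)
    (t2 : ∀ a : ℕ, 1 ≤ a →
      16 * (2 * (a : ℤ) - 1) * (∑ e, (j - a - q e) : ℕ) ≤ Fintype.card ι * k) :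
    (P : ℝ) ^ (Fintype.card ι * u) ≤ (4 ^ s * 2 ^ (5 * Fintype.card ι)) ^ 200 := by
  by_contra h0
  rw [not_le] at h0
  set n := Fintype.card ι with hn
  have p1 : (1 : ℝ) < P := by exact_mod_cast hP.one_lt
  have hle : ∀ e f c : ℕ, c ≤ 5 * n → (P : ℝ) ^ e ≤ P ^ f * (4 ^ s * 2 ^ c) →
      200 * e < 200 * f + n * u := fun e f c hc h => by
    refine (pow_lt_pow_iff_right₀ p1).1 ?_
    rw [pow_add, pow_mul', pow_mul']
    refine (pow_le_pow_left₀ (by positivity) h 200).trans_lt ?_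
    rw [mul_pow]
    refine mul_lt_mul_of_pos_left (lt_of_le_of_lt ?_ h0) (by positivity)
    gcongr
    norm_num
  have u2 : 79 * u ≤ u ^ 2 := by nlinarith
  obtain ⟨j', rfl⟩ := Nat.exists_eq_add_of_le' (show 50 * u ≤ j by omega)
  have kn : (n : ℤ) * k ≤ n * (1600 * (u + 1) ^ 2) :=
    mul_le_mul_of_nonneg_left (by exact_mod_cast hk') (by positivity)
  have u3 : (79 : ℤ) ≤ u := by exact_mod_cast hu
  have w0 : ∑ e, (j' + 50 * u - q e) ≤ 15 * (n * u) := by
    have a1 := t2 (7 * u) (by omega)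
    have a2 : ∑ e, (j' + 50 * u - q e) ≤ ∑ e, (j' + 50 * u - 7 * u - q e + 7 * u) :=
      Finset.sum_le_sum fun e _ => by omega
    rw [Finset.sum_add_distrib, Finset.sum_const, Finset.card_univ, smul_eq_mul, ← hn] at a2
    generalize ∑ e, (j' + 50 * u - 7 * u - q e) = W at a1 a2
    have a3 : (W : ℤ) ≤ 8 * (n * u) := by
      refine le_of_mul_le_mul_left (a := 16 * (2 * ((7 * u : ℕ) : ℤ) - 1)) (a1.trans (kn.trans ?_))
        (by push_cast; linarith)
      push_cast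
      have : (1600 : ℤ) * (u + 1) ^ 2 ≤ 16 * (2 * (7 * u) - 1) * (8 * u) := by nlinarith
      nlinarith [mul_le_mul_of_nonneg_left this (Int.natCast_nonneg n)]
    have a4 : W ≤ 8 * (n * u) := by exact_mod_cast a3
    nlinarith
  have w1 : 100 * ∑ e, (j' - q e) ≤ 103 * (n * u) := by
    have a1 := t2 (50 * u) (by omega)
    rw [Nat.add_sub_cancel] at a1
    generalize ∑ e, (j' - q e) = W at a1
    have a3 : 100 * (W : ℤ) ≤ 103 * (n * u) := by
      refine le_of_mul_le_mul_left (a := 16 * (2 * ((50 * u : ℕ) : ℤ) - 1)) ?_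
        (by push_cast; linarith)
      have : 100 * ((1600 : ℤ) * (u + 1) ^ 2) ≤ 16 * (2 * (50 * u) - 1) * (103 * u) := by nlinarith
      push_cast at a1 kn ⊢
      nlinarith [mul_le_mul_of_nonneg_left this (Int.natCast_nonneg n)]
    exact_mod_cast a3
  obtain ⟨S, Δ, R, r1, r2, r3⟩ := stepB (μ := n / 2000) (κ := 2 * (n / 200 + n / 2000))
    hP.ne_zero hH hF hj hΦ h1 h2 h3 (by
      refine lt_of_not_ge fun h => ?_
      rw [← pow_mul] at h
      have a1 := hle _ _ _ (by omega) h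
      have a2 : n ≤ 2000 * (n / 2000 + 1) := by omega
      have a3 : 800 * (79 * u) * n ≤ (j' + 50 * u) * (2000 * (n / 2000 + 1)) :=
        Nat.mul_le_mul (by omega) a2
      nlinarith) (by omega)
  have hF' : Hᵀ = Gᵀ * diagonal (fun e => (P : ℤ) ^ q e) * Fᵀ := by
    rw [hF, transpose_mul, transpose_mul, diagonal_transpose, Matrix.mul_assoc]
  have l1 := low (θ := j' + (9 * u + 50 * u)) hP hF' hΦ r1 r2 u
  have l2 := high (j' := j') (w := 9 * u) (w' := 50 * u) hP hH' hF' hj hΦ r1 r2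
  have l3 := rank_le_card_width (mk ℚ S * (V * Hᵀ.map zq * U) * mk ℚ S)
  rw [show j' + (9 * u + 50 * u) + u = j' + 50 * u + 10 * u by ring] at l1
  generalize (mk ℚ S * (V * Hᵀ.map zq * U) * mk ℚ S).rank = ρ at *
  generalize (Finset.univ.filter fun e => P ∣ (Δ e / P ^ (j' + (9 * u + 50 * u))).den).card = L at *
  generalize (Finset.univ.filter fun e => q e < j' + 50 * u + 10 * u).card = T at *
  generalize hκ : 2 * (n / 200 + n / 2000) = κ at *
  have n0 := hle 0 0 0 (Nat.zero_le _) (by simpa using one_le_pow₀ (by norm_num : (1 : ℝ) ≤ 4))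
  have l4 : 200 * (L - (T + κ)) < n := by
    rcases le_total L (T + κ) with h | h
    · rw [Nat.sub_eq_zero_of_le h]
      exact Nat.pos_of_mul_pos_right (by simpa using n0)
    · have a1 := hle (u * (L - (T + κ))) 0 0 (Nat.zero_le _) (by
        simpa using (show (P : ℝ) ^ (u * (L - (T + κ))) ≤ 4 ^ s by
          exact_mod_cast l1 _ (by omega)))
      refine lt_of_mul_lt_mul_right (a := u) ?_ (Nat.zero_le _)
      nlinarith
  obtain ⟨r, hr⟩ := Nat.exists_eq_add_of_le (show L + κ ≤ ρ by omega)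
  have l5 := hle _ _ _ (by omega) (l2 (κ + r) r le_rfl (by omega))
  have l6 : 1800 * r < 10000 * κ + 207 * n := by
    refine lt_of_mul_lt_mul_right (a := u) ?_ (Nat.zero_le _)
    nlinarith
  omega

end Pool.Agent.MP_5daf37_lc.HG

end
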