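import Mathlib

/-!
Conference matrices: the instance with entries `0, 1, -1` of the hypothesis `B Bᵀ = P`.
-/

open Matrix

namespace Pool.Agent.MP_5daf37_lc.HG

theorem paley (P : ℕ) (hP : P.Prime) (h2 : P ≠ 2) : ∃ B : Matrix (Fin (P + 1)) (Fin (P + 1)) ℤ,
    (∀ i j, |B i j| ≤ 1) ∧ B * Bᵀ = (P : ℤ) • (1 : Matrix (Fin (P + 1)) (Fin (P + 1)) ℤ) := by
  have := Fact.mk hP
  let χ := quadraticChar (ZMod P)
  have hc : ringChar (ZMod P) ≠ 2 := by rwa [ZMod.ringChar_zmod_n]
  have s1 : ∀ a, ∑ c, χ (a - c) = 0 := fun a =>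
    ((Equiv.subLeft a).sum_comp χ).trans (quadraticChar_sum_zero hc)
  have s2 : ∀ a, ∑ c, χ (a - c) * χ (a - c) = P - 1 := fun a => by
    refine ((Equiv.subLeft a).sum_comp fun c => χ c * χ c).trans ?_
    rw [← Finset.sum_erase_add _ _ (Finset.mem_univ 0), Finset.sum_congr rfl fun c hc => (sq _).symm.trans
        (quadraticChar_sq_one (Finset.ne_of_mem_erase hc))]
    simp [χ, ZMod.card, hP.one_le]
  have s3 : ∀ a b, a ≠ b → ∑ c, χ (a - c) * χ (b - c) = -1 := fun a b h => by
    have h0 := sub_ne_zero.2 h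
    have h1 := jacobiSum_nontrivial_inv (quadraticChar_ne_one hc)
    rw [(quadraticChar_isQuadratic (ZMod P)).inv, jacobiSum] at h1
    have h3 := quadraticChar_sq_one h0
    have h4 := quadraticChar_sq_one (neg_ne_zero.2 (one_ne_zero (α := ZMod P)))
    rw [← ((Equiv.mulLeft₀ _ h0).trans (Equiv.subLeft a)).sum_comp]
    refine (Finset.sum_congr rfl fun c _ => ?_).trans
      (show ∑ c, χ (a - b) ^ 2 * χ (-1) * (χ c * χ (1 - c)) = -1 by
        rw [← Finset.mul_sum, h1, h3, one_mul, mul_neg, ← sq, h4])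
    rw [sq, ← map_mul, ← map_mul, ← map_mul, ← map_mul, ← map_mul]
    congr 1
    simp
    ring
  let B : Matrix (Option (ZMod P)) (Option (ZMod P)) ℤ := of fun i j =>
    i.elim (j.elim 0 fun _ => 1) fun a => j.elim 1 fun c => χ (a - c)
  obtain ⟨e⟩ : Nonempty (Fin (P + 1) ≃ Option (ZMod P)) :=
    ⟨Fintype.equivOfCardEq (by simp [ZMod.card])⟩
  refine ⟨B.submatrix e e, fun i j => ?_, ?_⟩
  · rw [submatrix_apply]
    rcases e i with _ | a <;> rcases e j with _ | c
    · simp [B]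
    · simp [B]
    · simp [B]
    · change |quadraticChar (ZMod P) (a - c)| ≤ 1
      rcases quadraticChar_isQuadratic (ZMod P) (a - c) with h | h | h <;> rw [h] <;> simp
  · rw [transpose_submatrix, submatrix_mul_equiv, ← submatrix_one_equiv e]
    refine congrArg (fun M => submatrix M e e)
      (show B * Bᵀ = (P : ℤ) • (1 : Matrix (Option (ZMod P)) (Option (ZMod P)) ℤ) from ?_)
    ext (_ | a) (_ | b)
    · simp [B, mul_apply, Fintype.sum_option, ZMod.card, -zsmul_eq_mul]
    · simp [B, mul_apply, Fintype.sum_option, s1, -zsmul_eq_mul]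
    · simp [B, mul_apply, Fintype.sum_option, s1, -zsmul_eq_mul]
    · by_cases h : a = b
      · simp [B, mul_apply, Fintype.sum_option, h, s2, -zsmul_eq_mul]
      · simp [B, mul_apply, Fintype.sum_option, h, s3, -zsmul_eq_mul]

end Pool.Agent.MP_5daf37_lc.HG
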